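import Pool.Agent.LFN.Defs

/-!
Brm (size 4): a Hamiltonian vector field is divergence free: `{minor f, g} = ∑ p, minor (f with {f p, g} in the place p)`.
PROOF. Let `v = ∑ k, (sg k * d10 g z (e k)) • e k.swap`: `bracket f g z = d10 f z v` (`d10` is linear in the vector: `d10_add_vec`,
`d10_smul_vec`, DTW). `M p q = d10 (f p) z (e q)`. Product rule for the determinant (`Matrix.det_apply`; or the private lemmas on
derivatives of determinants in NSK/MinA or SKF/Grm), all functions holomorphic (`d10 f y a = fderiv ℂ f y a`):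
`d10 (minor f) z v = ∑ p, det (M.updateRow p fun q => d10 (fun y => d10 (f p) y (e q)) z v)`. Next
`d10 (fun y => bracket (f p) g y) z (e q) = d10 (fun y => d10 (f p) y (e q)) z v + ∑ k, sg k * M p k.swap * G k q`,
`G k q = d10 (fun y => d10 g y (e k)) z (e q)` symmetric (`d10_d10_comm`). So the difference of the two sides of the claim is
`∑ p, det (M.updateRow p ((M * N) p))`, `N l q = sg l.swap * G l.swap q`, `= ∑ p q, (M * N) p q * M.adjugate q p = trace (M * N * adjugate M)
= det M * trace N` (`Matrix.adjugate_apply`, `det_updateRow` expanded linearly, `Matrix.adjugate_mul`), and `trace N = ∑ l, sg l.swap * G l.swap l = 0`: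
`l ↦ l.swap` changes the sign (`sg l.swap = - sg l`, `G` symmetric).
-/

open scoped ContDiff ComplexConjugate Topology
open Complex

namespace Pool.Agent.LFN

open Pool.Agent.DTW Pool.Agent.SKF Pool.Agent.NSK Pool.Agent.LFC

variable {n : ℕ}

private theorem Brm_d1 {U : Set (E n)} (hU : IsOpen U) {F : E n → ℂ} (hF : ContDiffOn ℂ ∞ F U)
    {z : E n} (hz : z ∈ U) (a : E n) : d10 F z a = fderiv ℂ F z a :=
  d10_of_diff ((hF.contDiffAt (hU.mem_nhds hz)).differentiableAt (by simp)) a

private theorem Brm_hol {U : Set (E n)} (hU : IsOpen U) {F : E n → ℂ} (hF : ContDiffOn ℂ ∞ F U)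
    (b : E n) : ContDiffOn ℂ ∞ (fun y => d10 F y b) U := by
  have h1 : ContDiffOn ℂ ∞ (fderiv ℂ F) U := hF.fderiv_of_isOpen hU (by simp)
  have h2 : ContDiffOn ℂ ∞ (fun y => fderiv ℂ F y b) U := h1.clm_apply contDiffOn_const
  exact h2.congr fun y hy => Brm_d1 hU hF hy b

private theorem Brm_d2 {U : Set (E n)} (hU : IsOpen U) {F : E n → ℂ} (hF : ContDiffOn ℂ ∞ F U)
    {z : E n} (hz : z ∈ U) (a b : E n) :
    fderiv ℂ (fun y => d10 F y b) z a = fderiv ℂ (fderiv ℂ F) z a b := by
  have h1 : ContDiffOn ℂ ∞ (fderiv ℂ F) U := hF.fderiv_of_isOpen hU (by simp)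
  have h2 : DifferentiableAt ℂ (fderiv ℂ F) z :=
    (h1.contDiffAt (hU.mem_nhds hz)).differentiableAt (by simp)
  have hev : (fun y => d10 F y b) =ᶠ[𝓝 z] fun y => fderiv ℂ F y b := by
    filter_upwards [hU.mem_nhds hz] with y hy
    exact Brm_d1 hU hF hy b
  have h3 : HasFDerivAt (fun y => fderiv ℂ F y b) ((fderiv ℂ (fderiv ℂ F) z).flip b) z := by
    have := h2.hasFDerivAt.clm_apply (hasFDerivAt_const b z)
    simpa using this
  rw [hev.fderiv_eq, h3.fderiv]
  rfl

private theorem Brm_symm {U : Set (E n)} (hU : IsOpen U) {F : E n → ℂ} (hF : ContDiffOn ℂ ∞ F U)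
    {z : E n} (hz : z ∈ U) (a b : E n) :
    fderiv ℂ (fderiv ℂ F) z a b = fderiv ℂ (fderiv ℂ F) z b a := by
  have h2 : (minSmoothness ℂ 2) ≤ (∞ : WithTop ℕ∞) := by
    rw [minSmoothness_of_isRCLikeNormedField]
    exact WithTop.coe_le_coe.2 le_top
  have h : IsSymmSndFDerivAt ℂ F z := (hF.contDiffAt (hU.mem_nhds hz)).isSymmSndFDerivAt h2
  exact h a b

theorem minor_hol {U : Set (E n)} (hU : IsOpen U) {f : Ix n → E n → ℂ}
    (hf : ∀ p, ContDiffOn ℂ ∞ (f p) U) : ContDiffOn ℂ ∞ (minor f) U := by
  have h1 : minor f = fun y => ∑ σ : Equiv.Perm (Ix n),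
      ((Equiv.Perm.sign σ : ℤ) : ℂ) * ∏ i, d10 (f (σ i)) y (e i) := by
    funext y
    unfold minor
    rw [Matrix.det_apply']
    rfl
  rw [h1]
  refine ContDiffOn.sum fun σ _ => ?_
  exact contDiffOn_const.mul (contDiffOn_prod fun i _ => Brm_hol hU (hf (σ i)) (e i))

theorem bracket_hol {U : Set (E n)} (hU : IsOpen U) {f g : E n → ℂ} (hf : ContDiffOn ℂ ∞ f U)
    (hg : ContDiffOn ℂ ∞ g U) : ContDiffOn ℂ ∞ (bracket f g) U := by
  have h1 : bracket f g = fun y => ∑ k : Ix n, sg k * d10 f y (e k.swap) * d10 g y (e k) := by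
    funext y
    rfl
  rw [h1]
  exact ContDiffOn.sum fun k _ =>
    (contDiffOn_const.mul (Brm_hol hU hf (e k.swap))).mul (Brm_hol hU hg (e k))

/-- the determinant as a continuous multilinear map of the rows -/
private noncomputable def Brm_det (n : ℕ) :
    ContinuousMultilinearMap ℂ (fun _ : Ix n => (Ix n → ℂ)) ℂ where
  toMultilinearMap := (Matrix.detRowAlternating (R := ℂ) (n := Ix n)).toMultilinearMap
  cont := by
    show Continuous fun M : Matrix (Ix n) (Ix n) ℂ => M.det
    exact Continuous.matrix_det continuous_id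

private theorem Brm_det_apply (M : Ix n → Ix n → ℂ) : Brm_det n M = (Matrix.of M).det := rfl

private theorem Brm_fderiv_minor {U : Set (E n)} (hU : IsOpen U) {f : Ix n → E n → ℂ}
    (hf : ∀ p, ContDiffOn ℂ ∞ (f p) U) {z : E n} (hz : z ∈ U) (v : E n) :
    fderiv ℂ (minor f) z v = ∑ p, Brm_det n (Function.update
      (fun p q => d10 (f p) z (e q)) p (fun q => fderiv ℂ (fun y => d10 (f p) y (e q)) z v)) := by
  have h1 : HasFDerivAt (fun y => (fun p q => d10 (f p) y (e q) : Ix n → Ix n → ℂ))
      (ContinuousLinearMap.pi fun p => ContinuousLinearMap.pi fun q =>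
        fderiv ℂ (fun y => d10 (f p) y (e q)) z) z := by
    rw [hasFDerivAt_pi]
    intro p
    rw [hasFDerivAt_pi]
    intro q
    exact (((Brm_hol hU (hf p) (e q)).contDiffAt (hU.mem_nhds hz)).differentiableAt
      (by simp)).hasFDerivAt
  have h2 := ((Brm_det n).hasFDerivAt (fun p q => d10 (f p) z (e q))).comp z h1
  have h3 : fderiv ℂ (minor f) z = _ := h2.fderiv
  rw [h3, ContinuousLinearMap.comp_apply, ContinuousMultilinearMap.linearDeriv_apply]
  rfl

private theorem Brm_updateRow (M : Matrix (Ix n) (Ix n) ℂ) (r : Ix n → ℂ) (p : Ix n) :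
    Brm_det n (Function.update M p r) = ∑ q, M.adjugate q p * r q := by
  have h1 : Brm_det n (Function.update M p r) = (M.updateRow p r).det := rfl
  rw [h1, ← Matrix.cramer_transpose_apply, Matrix.cramer_eq_adjugate_mulVec,
    ← Matrix.adjugate_transpose]
  rfl

private theorem Brm_trace (M N : Matrix (Ix n) (Ix n) ℂ) :
    ∑ p, Brm_det n (Function.update M p ((M * N) p)) = M.det * N.trace := by
  have h1 : ∑ p, Brm_det n (Function.update M p ((M * N) p))
      = (M * N * M.adjugate).trace := by
    unfold Matrix.trace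
    refine Finset.sum_congr rfl fun p _ => ?_
    rw [Brm_updateRow, Matrix.diag_apply, Matrix.mul_apply]
    refine Finset.sum_congr rfl fun q _ => ?_
    ring
  rw [h1, Matrix.trace_mul_comm, ← Matrix.mul_assoc, Matrix.adjugate_mul, Matrix.smul_mul,
    Matrix.one_mul, Matrix.trace_smul, smul_eq_mul]

theorem brm {U : Set (E n)} (hU : IsOpen U) {f : Ix n → E n → ℂ}
    (hf : ∀ p, ContDiffOn ℂ ∞ (f p) U) {g : E n → ℂ} (hg : ContDiffOn ℂ ∞ g U) {z : E n}
    (hz : z ∈ U) :
    bracket (minor f) g z = ∑ p, minor (Function.update f p (bracket (f p) g)) z := by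
  classical
  set M : Matrix (Ix n) (Ix n) ℂ := Matrix.of fun p q => d10 (f p) z (e q) with hM
  set G : Ix n → Ix n → ℂ := fun k q => fderiv ℂ (fderiv ℂ g) z (e k) (e q) with hG
  set v : E n := ∑ k : Ix n, (sg k * d10 g z (e k)) • (e k.swap : E n) with hv
  have hGs : ∀ k q, G k q = G q k := fun k q => Brm_symm hU hg hz _ _
  set N : Matrix (Ix n) (Ix n) ℂ := Matrix.of fun l q => sg l.swap * G l.swap q with hN
  -- left hand side
  have hL : bracket (minor f) g z = fderiv ℂ (minor f) z v := by
    rw [hv, map_sum]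
    unfold bracket
    refine Finset.sum_congr rfl fun k _ => ?_
    rw [map_smul, Brm_d1 hU (minor_hol hU hf) hz, smul_eq_mul]
    ring
  -- rows
  have hrow : ∀ p q, d10 (bracket (f p) g) z (e q)
      = fderiv ℂ (fun y => d10 (f p) y (e q)) z v + (M * N) p q := by
    intro p q
    rw [Brm_d1 hU (bracket_hol hU (hf p) hg) hz]
    have hd1 : ∀ b : E n, DifferentiableAt ℂ (fun y => d10 (f p) y b) z := fun b =>
      ((Brm_hol hU (hf p) b).contDiffAt (hU.mem_nhds hz)).differentiableAt (by simp)
    have hd2 : ∀ b : E n, DifferentiableAt ℂ (fun y => d10 g y b) z := fun b =>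
      ((Brm_hol hU hg b).contDiffAt (hU.mem_nhds hz)).differentiableAt (by simp)
    have h1 : HasFDerivAt (bracket (f p) g)
        (∑ k : Ix n, ((sg k * d10 (f p) z (e k.swap)) • fderiv ℂ (fun y => d10 g y (e k)) z
          + d10 g z (e k) • (sg k • fderiv ℂ (fun y => d10 (f p) y (e k.swap)) z))) z := by
      have h2 : bracket (f p) g = fun y => ∑ k : Ix n, sg k * d10 (f p) y (e k.swap)
          * d10 g y (e k) := by
        funext y
        rfl
      rw [h2]
      exact HasFDerivAt.fun_sum fun k _ =>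
        (((hd1 (e k.swap)).hasFDerivAt.const_mul (sg k)).mul (hd2 (e k)).hasFDerivAt)
    rw [h1.fderiv, _root_.sum_apply, hv, map_sum, Matrix.mul_apply]
    have h3 : ∑ l, M p l * N l q = ∑ k : Ix n, M p k.swap * N k.swap q := by
      refine (Equiv.sum_comp (Equiv.sumComm (Fin n) (Fin n)) (fun l => M p l * N l q)).symm
    rw [h3, ← Finset.sum_add_distrib]
    refine Finset.sum_congr rfl fun k _ => ?_
    rw [_root_.add_apply, _root_.smul_apply,
      _root_.smul_apply, _root_.smul_apply, map_smul, smul_eq_mul,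
      smul_eq_mul, smul_eq_mul, smul_eq_mul, Brm_d2 hU hg hz, Brm_d2 hU (hf p) hz,
      Brm_d2 hU (hf p) hz, Brm_symm hU (hf p) hz (e q) (e k.swap), hM, hN]
    simp only [Matrix.of_apply, Sum.swap_swap]
    rw [hGs k q]
    ring
  have hR : ∀ p, minor (Function.update f p (bracket (f p) g)) z
      = Brm_det n (Function.update M p (fun q => fderiv ℂ (fun y => d10 (f p) y (e q)) z v))
        + Brm_det n (Function.update M p ((M * N) p)) := by
    intro p
    have h1 : minor (Function.update f p (bracket (f p) g)) z = Brm_det n (Function.update M p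
        ((fun q => fderiv ℂ (fun y => d10 (f p) y (e q)) z v) + (M * N) p)) := by
      rw [Brm_det_apply]
      unfold minor
      congr 1
      ext p' q
      rw [Matrix.of_apply, Matrix.of_apply]
      by_cases hp : p' = p
      · subst hp
        rw [Function.update_self, Function.update_self, hrow]
        rfl
      · rw [Function.update_of_ne hp, Function.update_of_ne hp]
        rfl
    rw [h1]
    exact (Brm_det n).map_update_add M p _ _
  have htr : N.trace = 0 := by
    have h1 : N.trace = ∑ l : Ix n, sg l.swap * G l.swap l := rfl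
    have h2 : ∑ l : Ix n, sg l.swap * G l.swap l = ∑ l : Ix n, sg l * G l l.swap := by
      rw [← Equiv.sum_comp (Equiv.sumComm (Fin n) (Fin n)) (fun l : Ix n => sg l.swap * G l.swap l)]
      refine Finset.sum_congr rfl fun l _ => ?_
      show sg (l.swap).swap * G (l.swap).swap l.swap = _
      rw [Sum.swap_swap]
    have h3 : ∀ l : Ix n, sg l.swap = -sg l := by
      intro l
      cases l <;> simp [sg]
    have h4 : ∑ l : Ix n, sg l * G l l.swap = -∑ l : Ix n, sg l.swap * G l.swap l := by
      rw [← Finset.sum_neg_distrib]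
      refine Finset.sum_congr rfl fun l _ => ?_
      rw [h3 l, hGs l l.swap]
      ring
    rw [h1]
    have h5 := h2.trans h4
    linear_combination h5 / 2
  rw [hL, Brm_fderiv_minor hU hf hz v, Finset.sum_congr rfl fun p _ => hR p,
    Finset.sum_add_distrib, Brm_trace, htr, mul_zero, add_zero]
  rfl

end Pool.Agent.LFN
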