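import Pool.Agent.LFN.Defs
import Pool.Agent.NSK.BndN
import Pool.Agent.NSK.Unif
import Pool.Agent.NSK.BoxE
import Pool.Agent.NSK.EmbO

/-!
Lpt (size 4): a path in the regular part with velocities `X_b`, `|X_b|² ≤ K`, converges in `X` for `s → s₂`.
PROOF. `X` is compact: let `x` be a cluster point of `p` along `𝓝[<] s₂`. `ex_boxes` (NSK/BoxE): a box `b q` with `x ∈ interior (b q).K`; write `k`, `K'` for its `k`, `K`:
`K' ⊆ A.V k` compact. `unif_P`, `unif_H` (NSK/Unif) and `bndX` (NSK/BndN; `emb_of`): for `s` with `p s ∈ K'`, `p s ∈ (A.c i).source`: `ζ k ∘ p = A.Z k i ∘ (A.c i ∘ p)` near `s`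
has the derivative `fderiv ℂ (A.Z k i) z (XX (η.w i) z b)`, `z = A.c i (p s)` (real derivative of the holomorphic map), of norm `≤ C`, `C² = H (2 m P)² K` (take `C > 0`).
Let `F = ζ k '' (K' \ interior K')`, compact, `ζ k x ∉ F` (`inj`): `δ > 0` with `ball (ζ k x) (2 δ)` disjoint from `F`. Choose `s₁ ∈ Ioo a s₂` with `p s₁ ∈ interior K'`,
`‖ζ k (p s₁) - ζ k x‖ < δ`, `C (s₂ - s₁) < δ`. Claim: `p s ∈ interior K'` for `s ∈ Ico s₁ s₂`: fix `s`; `Z = {σ ∈ Icc s₁ s | ∀ τ ∈ Icc s₁ σ, p τ ∈ K'}` is closed; if `σ ∈ Z` the speed of `ζ k ∘ p` on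
`Icc s₁ σ` is `≤ C`, so `‖ζ k (p σ) - ζ k x‖ < 2 δ`, so `p σ ∉ K' \ interior K'`, `p σ ∈ interior K'`, and `p τ ∈ K'` for `τ` slightly bigger: as in `cat` (LFC/Cat.lean:
`IsClosed.Icc_subset_of_forall_exists_gt`). So `ζ k ∘ p` is `C`-Lipschitz on `Ico s₁ s₂`, and the same argument with smaller `δ` (or: Cauchy, the limit is the
cluster value `ζ k x`) gives `ζ k (p s) → ζ k x`; `ζ k` is injective and continuous on the compact `K'`, so `p s → x`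
(`IsCompact` / closed embedding of the subtype `K'`; or: every cluster point `y ∈ K'` of `p` has `ζ k y = ζ k x`, so `y = x`;
`le_nhds_of_unique_clusterPt`-type lemma in a compact space).
-/

open scoped ContDiff ComplexConjugate Topology
open Complex

namespace Pool.Agent.LFN

open Pool.Agent.DTW Pool.Agent.SKF Pool.Agent.NSK Pool.Agent.LFC

variable {n m : ℕ} {X : Type*} [TopologicalSpace X] [CompactSpace X] [T2Space X] {ι κ : Type*}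
  {A : Space n m X ι κ}

private theorem Lpt_speed (η : Form A) (b : Box A) {p : ℝ → X} {a s₂ K : ℝ}
    (hp : ∀ s ∈ Set.Ioo a s₂, ContinuousAt p s)
    (hreg : ∀ s ∈ Set.Ioo a s₂, ∃ i, p s ∈ (A.c i).source)
    (hv : ∀ i, ∀ s ∈ Set.Ioo a s₂, p s ∈ (A.c i).source → ∃ b : E n,
      HasDerivAt (fun σ => A.c i (p σ)) (XX (η.w i) (A.c i (p s)) b) s ∧
        (levi (η.w i) (A.c i (p s)) b b).re ≤ K) :
    ∃ C : ℝ, 0 < C ∧ ∀ s ∈ Set.Ioo a s₂, p s ∈ b.K → ∃ v : E m,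
      HasDerivAt (fun σ => A.ζ b.k (p σ)) v s ∧ ‖v‖ ≤ C := by
  obtain ⟨P, hP, hPb⟩ := unif_P b
  obtain ⟨H, hH, hHb⟩ := unif_H η b
  refine ⟨√(H * (2 * m * P) ^ 2 * |K|) + 1, by positivity, fun s hs hK => ?_⟩
  obtain ⟨i, hi⟩ := hreg s hs
  obtain ⟨c, hc, hcK⟩ := hv i s hs hi
  set z := A.c i (p s) with hz_def
  have hz : z ∈ (A.c i).target := (A.c i).map_source hi
  have hzs : (A.c i).symm z = p s := (A.c i).left_inv hi
  have hzK : (A.c i).symm z ∈ b.K := by rw [hzs]; exact hK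
  have hzD : z ∈ A.D b.k i := box_D b hz hzK
  have hE := emb_of η b.k i
  have hd : HasFDerivAt (𝕜 := ℝ) (A.Z b.k i)
      ((fderiv ℂ (A.Z b.k i) z).restrictScalars ℝ) z :=
    (((hE.hol.contDiffAt (hE.loc.op.mem_nhds hzD)).differentiableAt
      (by simp)).hasFDerivAt).restrictScalars ℝ
  have hcomp : HasDerivAt (A.Z b.k i ∘ fun σ => A.c i (p σ))
      (((fderiv ℂ (A.Z b.k i) z).restrictScalars ℝ) (XX (η.w i) z c)) s :=
    HasFDerivAt.comp_hasDerivAt s hd hc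
  have hev : (fun σ => A.ζ b.k (p σ)) =ᶠ[𝓝 s] (A.Z b.k i ∘ fun σ => A.c i (p σ)) := by
    have h1 : ∀ᶠ σ in 𝓝 s, p σ ∈ (A.c i).source :=
      hp s hs ((A.c i).open_source.mem_nhds hi)
    filter_upwards [h1] with σ hσ
    show A.ζ b.k (p σ) = A.ζ b.k ((A.c i).symm (A.c i (p σ)))
    rw [(A.c i).left_inv hσ]
  refine ⟨_, hcomp.congr_of_eventuallyEq hev, ?_⟩
  have hW : ∀ u : E m, (levi (η.W b.k) (A.Z b.k i z) u u).re ≤ H * ‖u‖ ^ 2 := by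
    intro u
    have h1 := hHb _ hzK u
    exact h1
  have h2 := bndX hE hzD hP hH (hPb i z hz hzK) hW c
  have h3 : ‖fderiv ℂ (A.Z b.k i) z (XX (η.w i) z c)‖ ^ 2 ≤ H * (2 * m * P) ^ 2 * |K| := by
    refine h2.trans (mul_le_mul_of_nonneg_left (hcK.trans (le_abs_self K)) (by positivity))
  have h4 := Real.le_sqrt_of_sq_le h3
  show ‖fderiv ℂ (A.Z b.k i) z (XX (η.w i) z c)‖ ≤ _
  linarith

omit [CompactSpace X] in
private theorem Lpt_stay {b : Box A} {p : ℝ → X} {a s₂ C δ s₁ : ℝ} (hC : 0 < C)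
    (hp : ∀ s ∈ Set.Ioo a s₂, ContinuousAt p s)
    (hsp : ∀ s ∈ Set.Ioo a s₂, p s ∈ b.K → ∃ v : E m,
      HasDerivAt (fun σ => A.ζ b.k (p σ)) v s ∧ ‖v‖ ≤ C)
    {O : Set X} (hO : IsOpen O) (hOK : O ⊆ b.K) {y : E m}
    (hδ : ∀ x ∈ b.K, A.ζ b.k x ∈ Metric.ball y (2 * δ) → x ∈ O)
    (hs₁ : s₁ ∈ Set.Ioo a s₂) (hs₁O : p s₁ ∈ O) (hs₁y : A.ζ b.k (p s₁) ∈ Metric.ball y δ)
    (hs₁C : C * (s₂ - s₁) < δ) : ∀ s ∈ Set.Ico s₁ s₂, p s ∈ O := by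
  have hScl : IsClosed b.K := b.comp.isClosed
  have inner : ∀ σ ∈ Set.Ico s₁ s₂, (∀ τ ∈ Set.Icc s₁ σ, p τ ∈ b.K) → p σ ∈ O := by
    intro σ hσI hσ
    have hin : ∀ τ ∈ Set.Icc s₁ σ, τ ∈ Set.Ioo a s₂ := fun τ hτ =>
      ⟨by linarith [hs₁.1, hτ.1], by linarith [hσI.2, hτ.2]⟩
    have hex : ∀ τ ∈ Set.Icc s₁ σ, ∃ v : E m,
        HasDerivAt (fun σ => A.ζ b.k (p σ)) v τ ∧ ‖v‖ ≤ C :=
      fun τ hτ => hsp τ (hin τ hτ) (hσ τ hτ)
    choose! v hv1 hv2 using hex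
    have hle := (convex_Icc s₁ σ).norm_image_sub_le_of_norm_hasDerivWithin_le
      (f := fun σ => A.ζ b.k (p σ)) (f' := v) (C := C)
      (fun τ hτ => (hv1 τ hτ).hasDerivWithinAt) hv2
      (Set.left_mem_Icc.2 hσI.1) (Set.right_mem_Icc.2 hσI.1)
    refine hδ _ (hσ σ (Set.right_mem_Icc.2 hσI.1)) ?_
    rw [mem_ball_iff_norm]
    have h1 : ‖A.ζ b.k (p s₁) - y‖ < δ := mem_ball_iff_norm.1 hs₁y
    have h2 : C * ‖σ - s₁‖ < δ := by
      rw [Real.norm_of_nonneg (by linarith [hσI.1])]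
      refine lt_of_le_of_lt ?_ hs₁C
      exact mul_le_mul_of_nonneg_left (by linarith [hσI.2]) hC.le
    calc ‖A.ζ b.k (p σ) - y‖
        = ‖(A.ζ b.k (p σ) - A.ζ b.k (p s₁)) + (A.ζ b.k (p s₁) - y)‖ := by
          congr 1
          abel
      _ ≤ ‖A.ζ b.k (p σ) - A.ζ b.k (p s₁)‖ + ‖A.ζ b.k (p s₁) - y‖ := norm_add_le _ _
      _ < 2 * δ := by linarith
  intro s hs
  have key : Set.Icc s₁ s ⊆ {σ | ∀ τ ∈ Set.Icc s₁ σ, p τ ∈ b.K} := by
    refine IsClosed.Icc_subset_of_forall_mem_nhdsWithin ?_ ?_ ?_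
    · refine isClosed_of_closure_subset fun σ hσ => ?_
      have hσI : σ ∈ Set.Icc s₁ s := closure_minimal (fun t ht => ht.2) isClosed_Icc hσ
      refine ⟨fun τ hτ => ?_, hσI⟩
      have hbelow : ∀ τ ∈ Set.Ico s₁ σ, p τ ∈ b.K := by
        intro τ hτ
        obtain ⟨σ', hσ', hd⟩ := Metric.mem_closure_iff.1 hσ (σ - τ) (by linarith [hτ.2])
        refine hσ'.1 τ ⟨hτ.1, ?_⟩
        rw [Real.dist_eq] at hd
        have := (abs_lt.1 hd).2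
        linarith
      rcases lt_or_eq_of_le hτ.2 with h1 | h1
      · exact hbelow τ ⟨hτ.1, h1⟩
      · rcases eq_or_lt_of_le hτ.1 with h2 | h2
        · rw [← h2]
          exact hOK hs₁O
        · have hτs : τ ∈ Set.Ioo a s₂ :=
            ⟨by linarith [hs₁.1], by linarith [hs.2, hσI.2]⟩
          have hc : Filter.Tendsto p (𝓝[<] τ) (𝓝 (p τ)) :=
            ((hp τ hτs).tendsto).mono_left nhdsWithin_le_nhds
          refine hScl.mem_of_tendsto hc ?_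
          filter_upwards [Ioo_mem_nhdsLT h2] with t ht
          exact hbelow t ⟨ht.1.le, by linarith [ht.2]⟩
    · intro τ hτ
      have : τ = s₁ := le_antisymm hτ.2 hτ.1
      rw [this]
      exact hOK hs₁O
    · rintro σ ⟨hσ, hσI⟩
      have hσ2 : σ ∈ Set.Ico s₁ s₂ := ⟨hσI.1, by linarith [hσI.2, hs.2]⟩
      have hσO : p σ ∈ O := inner σ hσ2 hσ
      have hevσ := (hp σ ⟨by linarith [hs₁.1, hσI.1], hσ2.2⟩) (hO.mem_nhds hσO)
      obtain ⟨ε, hε, hεO⟩ := Metric.mem_nhds_iff.1 hevσ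
      have hnb : Set.Ioo σ (σ + ε) ∈ 𝓝[>] σ := Ioo_mem_nhdsGT (by linarith)
      filter_upwards [hnb] with t ht
      intro τ hτ
      rcases le_or_gt τ σ with h1 | h1
      · exact hσ τ ⟨hτ.1, h1⟩
      · have h2 : τ ∈ Metric.ball σ ε := by
          rw [Metric.mem_ball, Real.dist_eq, abs_of_pos (by linarith)]
          linarith [hτ.2, ht.2]
        exact hOK (hεO h2)
  exact inner s hs (key (Set.right_mem_Icc.2 hs.1))

theorem lpt (η : Form A) {p : ℝ → X} {a s₂ K : ℝ} (h : a < s₂)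
    (hp : ∀ s ∈ Set.Ioo a s₂, ContinuousAt p s)
    (hreg : ∀ s ∈ Set.Ioo a s₂, ∃ i, p s ∈ (A.c i).source)
    (hv : ∀ i, ∀ s ∈ Set.Ioo a s₂, p s ∈ (A.c i).source → ∃ b : E n,
      HasDerivAt (fun σ => A.c i (p σ)) (XX (η.w i) (A.c i (p s)) b) s ∧
        (levi (η.w i) (A.c i (p s)) b b).re ≤ K) :
    ∃ x : X, Filter.Tendsto p (𝓝[<] s₂) (𝓝 x) := by
  obtain ⟨x, hx⟩ := exists_clusterPt_of_compactSpace (Filter.map p (𝓝[<] s₂))
  have hx' : MapClusterPt x (𝓝[<] s₂) p := hx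
  rw [mapClusterPt_iff_frequently] at hx'
  obtain ⟨N, bb, hbb⟩ := ex_boxes A
  obtain ⟨q, hq, -⟩ := hbb x
  set b := bb q with hb
  have hxK : x ∈ b.K := interior_subset hq
  have hxV : x ∈ A.V b.k := b.sub hxK
  obtain ⟨C, hC, hsp⟩ := Lpt_speed η b hp hreg hv
  refine ⟨x, ?_⟩
  rw [Filter.tendsto_def]
  intro U hU
  obtain ⟨O₁, hO₁U, hO₁, hxO₁⟩ := mem_nhds_iff.1 hU
  set O := O₁ ∩ interior b.K with hO_def
  have hO : IsOpen O := hO₁.inter isOpen_interior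
  have hOK : O ⊆ b.K := fun y hy => interior_subset hy.2
  have hxO : x ∈ O := ⟨hxO₁, hq⟩
  have hcF : IsCompact (A.ζ b.k '' (b.K \ O)) :=
    (b.comp.diff hO).image_of_continuousOn
      ((A.cont b.k).mono (Set.sdiff_subset.trans b.sub))
  have hnot : A.ζ b.k x ∉ A.ζ b.k '' (b.K \ O) := by
    rintro ⟨y, hy, hye⟩
    have hyx : y = x := A.inj b.k (b.sub hy.1) hxV hye
    exact hy.2 (hyx ▸ hxO)
  obtain ⟨ρ, hρ, hball⟩ := Metric.isOpen_iff.1 hcF.isClosed.isOpen_compl (A.ζ b.k x) hnot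
  have hδ : ∀ y ∈ b.K, A.ζ b.k y ∈ Metric.ball (A.ζ b.k x) (2 * (ρ / 2)) → y ∈ O := by
    intro y hy hyb
    rw [mul_div_cancel₀ ρ two_ne_zero] at hyb
    by_contra hyO
    exact hball hyb ⟨y, ⟨hy, hyO⟩, rfl⟩
  have hδ0 : 0 < ρ / 2 := by positivity
  have hnb : {y | y ∈ O ∧ A.ζ b.k y ∈ Metric.ball (A.ζ b.k x) (ρ / 2)} ∈ 𝓝 x := by
    refine Filter.inter_mem (hO.mem_nhds hxO) ?_
    exact ((A.cont b.k).continuousAt ((A.isOpen b.k).mem_nhds hxV))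
      (Metric.ball_mem_nhds _ hδ0)
  have hev : ∀ᶠ s in 𝓝[<] s₂, s ∈ Set.Ioo a s₂ ∧ C * (s₂ - s) < ρ / 2 := by
    have h1 : Set.Ioo a s₂ ∈ 𝓝[<] s₂ := Ioo_mem_nhdsLT h
    have h2 : Set.Ioo (s₂ - ρ / 2 / C) s₂ ∈ 𝓝[<] s₂ :=
      Ioo_mem_nhdsLT (by have : 0 < ρ / 2 / C := by positivity
                         linarith)
    filter_upwards [h1, h2] with s hs hs'
    refine ⟨hs, ?_⟩
    have h3 : s₂ - s < ρ / 2 / C := by linarith [hs'.1]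
    calc C * (s₂ - s) < C * (ρ / 2 / C) := mul_lt_mul_of_pos_left h3 hC
      _ = ρ / 2 := mul_div_cancel₀ _ hC.ne'
  obtain ⟨s₁, hs₁N, hs₁, hs₁R⟩ := ((hx' _ hnb).and_eventually hev).exists
  have hst := Lpt_stay hC hp hsp hO hOK hδ hs₁ hs₁N.1 hs₁N.2 hs₁R
  have h3 : Set.Ioo s₁ s₂ ∈ 𝓝[<] s₂ := Ioo_mem_nhdsLT hs₁.2
  filter_upwards [h3] with s hs
  exact hO₁U (hst s ⟨hs.1.le, hs.2⟩).1

end Pool.Agent.LFN
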