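import Pool.Agent.LFN.Defs
import Pool.Agent.NSK.InvG

/-!
The regular part of `X` with its Darboux charts and the potentials.
-/

open scoped ContDiff ComplexConjugate Topology
open Complex

namespace Pool.Agent.LFN

open Pool.Agent.DTW Pool.Agent.SKF Pool.Agent.NSK Pool.Agent.LFC

variable {n m r : ℕ} {X : Type*} [TopologicalSpace X] {ι κ : Type*}

theorem reg_open (A : Space n m X ι κ) : IsOpen A.reg := by
  have h : A.reg = ⋃ i, (A.c i).source := by
    ext x
    simp [Space.reg]
  rw [h]
  exact isOpen_iUnion fun i => (A.c i).open_source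

open Classical in
/-- a chart of the regular part -/
noncomputable def subChart (A : Space n m X ι κ) [Nonempty A.reg] (i : ι) :
    OpenPartialHomeomorph A.reg (E n) where
  toFun x := A.c i x.1
  invFun z := if h : z ∈ (A.c i).target then ⟨(A.c i).symm z, i, (A.c i).map_target h⟩
    else Classical.choice inferInstance
  source := {x | x.1 ∈ (A.c i).source}
  target := (A.c i).target
  map_source' _ hx := (A.c i).map_source hx
  map_target' z hz := by
    show (dite (z ∈ (A.c i).target) _ _ : A.reg).1 ∈ (A.c i).source
    rw [dif_pos hz]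
    exact (A.c i).map_target hz
  left_inv' x hx := by
    have h : A.c i x.1 ∈ (A.c i).target := (A.c i).map_source hx
    rw [dif_pos h]
    exact Subtype.ext ((A.c i).left_inv hx)
  right_inv' z hz := by
    rw [dif_pos hz]
    exact (A.c i).right_inv hz
  open_source := (A.c i).open_source.preimage continuous_subtype_val
  open_target := (A.c i).open_target
  continuousOn_toFun := (A.c i).continuousOn.comp continuous_subtype_val.continuousOn
    fun _ hx => hx
  continuousOn_invFun := by
    rw [Topology.IsInducing.subtypeVal.continuousOn_iff]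
    refine (A.c i).continuousOn_symm.congr ?_
    intro z hz
    show (dite (z ∈ (A.c i).target) _ _ : A.reg).1 = _
    rw [dif_pos hz]

theorem subChart_apply (A : Space n m X ι κ) [Nonempty A.reg] (i : ι) (x : A.reg) :
    subChart A i x = A.c i x.1 := rfl

theorem subChart_source (A : Space n m X ι κ) [Nonempty A.reg] (i : ι) (x : A.reg) :
    x ∈ (subChart A i).source ↔ x.1 ∈ (A.c i).source := Iff.rfl

theorem subChart_target (A : Space n m X ι κ) [Nonempty A.reg] (i : ι) :
    (subChart A i).target = (A.c i).target := rfl

theorem subChart_symm (A : Space n m X ι κ) [Nonempty A.reg] (i : ι) {z : E n}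
    (hz : z ∈ (A.c i).target) : ((subChart A i).symm z).1 = (A.c i).symm z := by
  classical
  have h : (subChart A i).symm z = ⟨(A.c i).symm z, i, (A.c i).map_target hz⟩ := dif_pos hz
  rw [h]

private theorem sub_ph (A : Space n m X ι κ) [Nonempty A.reg] (i j : ι) {z : E n}
    (hz : z ∈ (A.c i).target) :
    (subChart A j ∘ (subChart A i).symm) z = (A.c j ∘ (A.c i).symm) z := by
  show A.c j ((subChart A i).symm z).1 = A.c j ((A.c i).symm z)
  rw [subChart_symm A i hz]

private theorem sub_set (A : Space n m X ι κ) [Nonempty A.reg] (i j : ι) :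
    {z | z ∈ (subChart A i).target ∧ (subChart A i).symm z ∈ (subChart A j).source}
      = {z | z ∈ (A.c i).target ∧ (A.c i).symm z ∈ (A.c j).source} := by
  ext z
  constructor
  · rintro ⟨h1, h2⟩
    refine ⟨h1, ?_⟩
    have h3 := (subChart_source A j _).1 h2
    rw [subChart_symm A i h1] at h3
    exact h3
  · rintro ⟨h1, h2⟩
    refine ⟨h1, ?_⟩
    rw [subChart_source, subChart_symm A i h1]
    exact h2

private theorem sub_fderiv (A : Space n m X ι κ) [Nonempty A.reg] (i j : ι) {z : E n}
    (hz : z ∈ (A.c i).target) :
    fderiv ℂ (subChart A j ∘ (subChart A i).symm) z = fderiv ℂ (A.c j ∘ (A.c i).symm) z := by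
  apply Filter.EventuallyEq.fderiv_eq
  filter_upwards [(A.c i).open_target.mem_nhds hz] with y hy
  exact sub_ph A i j hy

/-- the atlas of the regular part -/
noncomputable def subAtlas (A : Space n m X ι κ) [Nonempty A.reg] : Atlas n A.reg ι where
  c := subChart A
  cover x := x.2
  hol i j := by
    rw [sub_set]
    exact (A.hol i j).congr fun z hz => sub_ph A i j hz.1
  symp i j z hz hj a b := by
    rw [sub_fderiv A i j hz]
    rw [subChart_source, subChart_symm A i hz] at hj
    exact A.symp i j z hz hj a b

/-- the potentials on the regular part -/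
noncomputable def subPot {A : Space n m X ι κ} [Nonempty A.reg] (η : Form A) :
    Pot (subAtlas A) where
  wt := η.w
  smooth := η.smooth
  compat i j z hz a b := by
    have hz1 : z ∈ (A.c i).target := hz.1
    have hz2 : (A.c i).symm z ∈ (A.c j).source := by
      have h : ((subChart A i).symm z).1 ∈ (A.c j).source := (subChart_source A j _).1 hz.2
      rwa [subChart_symm A i hz1] at h
    obtain ⟨k, hk⟩ := A.cover ((A.c i).symm z)
    have h := (chg_of η k i j).lev z ⟨⟨hz1, hk⟩, hz2⟩ a b
    have e1 : ph (subAtlas A) i j z = (A.c j ∘ (A.c i).symm) z := sub_ph A i j hz1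
    have e2 : fderiv ℂ (ph (subAtlas A) i j) z = fderiv ℂ (A.c j ∘ (A.c i).symm) z :=
      sub_fderiv A i j hz1
    rw [e1, e2]
    exact h

end Pool.Agent.LFN
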