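import Pool.Agent.LFN.Nos
import Pool.Agent.LFN.Lpt
import Pool.Agent.LFN.Sub

/-!
Cpl (size 3): no finite escape on the regular part.
PROOF. `p' : ℝ → A.reg` as in `Complete`, `p s = (p' s).1`: continuous, `p s` is regular, and `(subAtlas A).c i (p' s) = A.c i (p s)` (`subChart_apply`, all by `rfl`;
`(subPot η).wt = η.w`). `lpt`: `p → x`; `nos`: `x ∈ (A.c i).source`. `z = A.c i x`, `Q = closedBall z R ⊆ (A.c i).target`; near `s₂` (`hx`, the set `(A.c i).source ∩ A.c i ⁻¹' ball z R` is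
an open neighbourhood of `x`): `p s` in it for `s ∈ Ico s₁ s₂` (`mem_nhdsLT_iff_exists_Ioo_subset`-type lemma).
-/

open scoped ContDiff ComplexConjugate Topology
open Complex

namespace Pool.Agent.LFN

open Pool.Agent.DTW Pool.Agent.SKF Pool.Agent.NSK Pool.Agent.LFC

variable {n m : ℕ} {X : Type*} [TopologicalSpace X] [CompactSpace X] [T2Space X] {ι κ : Type*}
  {A : Variety n m X ι κ}

theorem cpl [Nonempty A.toSpace.reg] (η : Form A.toSpace) : Complete (subPot η) := by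
  intro p' a s₂ K h hp hv
  have hpc : ∀ s ∈ Set.Ioo a s₂, ContinuousAt (fun σ => (p' σ).1) s := fun s hs =>
    continuous_subtype_val.continuousAt.comp (hp s hs)
  have hreg : ∀ s ∈ Set.Ioo a s₂, ∃ i, (p' s).1 ∈ (A.toSpace.c i).source := fun s _ => (p' s).2
  have hv' : ∀ i, ∀ s ∈ Set.Ioo a s₂, (p' s).1 ∈ (A.toSpace.c i).source → ∃ b : E n,
      HasDerivAt (fun σ => A.toSpace.c i (p' σ).1) (XX (η.w i) (A.toSpace.c i (p' s).1) b) s ∧
        (levi (η.w i) (A.toSpace.c i (p' s).1) b b).re ≤ K := fun i s hs hps => hv i s hs hps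
  obtain ⟨x, hx⟩ := lpt η h hpc hreg hv'
  obtain ⟨i, hi⟩ := nos η h hpc hreg hv' hx
  have hzt : A.c i x ∈ (A.c i).target := (A.c i).map_source hi
  obtain ⟨R, hR, hball⟩ := Metric.isOpen_iff.1 (A.c i).open_target _ hzt
  refine ⟨i, Metric.closedBall (A.c i x) (R / 2), isCompact_closedBall _ _,
    (Metric.closedBall_subset_ball (by linarith)).trans hball, ?_⟩
  have hN : (A.c i).source ∩ (A.c i) ⁻¹' Metric.ball (A.c i x) (R / 2) ∈ 𝓝 x := by
    apply IsOpen.mem_nhds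
    · exact (A.c i).continuousOn.isOpen_inter_preimage (A.c i).open_source Metric.isOpen_ball
    · exact ⟨hi, Metric.mem_ball_self (by linarith)⟩
  have hev : (fun σ => (p' σ).1) ⁻¹' ((A.c i).source ∩ (A.c i) ⁻¹' Metric.ball (A.c i x) (R / 2))
      ∈ 𝓝[<] s₂ := hx hN
  obtain ⟨l, hl, hsub⟩ := (mem_nhdsLT_iff_exists_mem_Ico_Ioo_subset h).1 hev
  have hl1 : a ≤ l := hl.1
  have hl2 : l < s₂ := hl.2
  refine ⟨(l + s₂) / 2, ⟨by linarith, by linarith⟩, ?_⟩
  intro s hs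
  have hs1 : (l + s₂) / 2 ≤ s := hs.1
  have hmem := hsub (show s ∈ Set.Ioo l s₂ from ⟨by linarith, hs.2⟩)
  exact ⟨hmem.1, Metric.ball_subset_closedBall hmem.2⟩

end Pool.Agent.LFN
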