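import Pool.Agent.LFN.Defs
import Pool.Agent.LFC.Fra
import Pool.Agent.LFC.Hrr
import Pool.Agent.LFC.Lcc

/-!
Copy of Pool/Agent/LFC/Lcc.lean with `Bundle` replaced by `Pot`.
Lcc (size 2): leaf maps in one chart.
`leafC_of`: `{t ∈ Ω | Φ t ∈ (A.c i).source}` is open (`Φ` is continuous at the points of the open set `Ω`).
`leafC_smooth`: `hrr`. `leafC_frame`: `HasFDerivAt.fderiv`.
-/

open scoped ContDiff ComplexConjugate Topology
open Complex

namespace Pool.Agent.LFN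

open Pool.Agent.DTW Pool.Agent.SKF Pool.Agent.LFC

variable {n r : ℕ} {U : Set (E n)} {w : E n → ℝ}

theorem leafC_of {X : Type*} [TopologicalSpace X] {ι : Type*} {A : Atlas n X ι} (B : Pot A)
    {Ω : Set (Fin r → ℂ)} (hΩ : IsOpen Ω) {Φ : (Fin r → ℂ) → X} (hΦ : ∀ t ∈ Ω, LeafAt B Φ t)
    (i : ι) :
    LeafC (B.wt i) (A.c i).target (A.c i ∘ Φ) {t | t ∈ Ω ∧ Φ t ∈ (A.c i).source} := by
  refine ⟨?_, fun t ht => (A.c i).map_source ht.2, fun t ht => (hΦ t ht.1).2 i ht.2⟩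
  rw [isOpen_iff_mem_nhds]
  rintro t ⟨ht, ht'⟩
  filter_upwards [hΩ.mem_nhds ht,
    (hΦ t ht).1.preimage_mem_nhds ((A.c i).open_source.mem_nhds ht')] with s hs hs'
  exact ⟨hs, hs'⟩

end Pool.Agent.LFN
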