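import Pool.Agent.LFN.Defs
import Pool.Agent.LFC.Lex
import Pool.Agent.LFN.Chb
import Pool.Agent.LFN.Lcc

/-!
Copy of Pool/Agent/LFC/Lps.lean with `Bundle` replaced by `Pot`.
Lps (size 3): local leaf maps into `X`.
PROOF. `ρ`, `δ` from `lex` for `L i`. Given `y`, `Y`: `ψ t = (A.c i).symm (Y t).1`. For `t ∈ ball 0 δ`: `Y` is continuous at
`t`, `(Y t).1 ∈ (A.c i).target`, so `ψ` is continuous at `t` and `A.c i ∘ ψ = fun t => (Y t).1` near `t` (`right_inv`).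
`HasFDerivAt Y (velL w (Y t)) t` (real) gives for the first component the real derivative
`ξ ↦ XX w (Y t).1 (bx (Y t).2 ξ)`, the restriction of scalars of the complex linear `T` of `frame_of_inv`; so
`HasFDerivAt (𝕜 := ℂ) (A.c i ∘ ψ) T t` (`hasFDerivAt_of_restrictScalars`). `IsFrame` by `frame_of_inv`,
`leafAt_of_chart`. At `t = 0`: `Y 0 = y`.
-/

open scoped ContDiff ComplexConjugate Topology
open Complex

namespace Pool.Agent.LFN

open Pool.Agent.DTW Pool.Agent.SKF Pool.Agent.LFC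

variable {n r : ℕ} {X : Type*} [TopologicalSpace X] {ι : Type*} {A : Atlas n X ι}

theorem lps (B : Pot A) (L : ∀ i, LocB (B.wt i) (A.c i).target) {i : ι}
    {y0 : E n × (Fin r → E n)} (h0 : y0.1 ∈ (A.c i).target) :
    ∃ ρ > 0, ∃ δ > 0, ∀ y, dist y y0 < ρ → InvP (B.wt i) y → ∃ ψ : (Fin r → ℂ) → X,
      ψ 0 = (A.c i).symm y.1 ∧ y.1 ∈ (A.c i).target ∧
      (∀ t ∈ Metric.ball (0 : Fin r → ℂ) δ, LeafAt B ψ t) ∧
      ∃ T : (Fin r → ℂ) →L[ℂ] E n, HasFDerivAt (𝕜 := ℂ) (A.c i ∘ ψ) T 0 ∧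
        ∀ ζ, T ζ = XX (B.wt i) y.1 (bx y.2 ζ) := by
  obtain ⟨ρ, hρ, δ, hδ, h⟩ := lex (L i) h0
  refine ⟨ρ, hρ, δ, hδ, fun y hy hI => ?_⟩
  obtain ⟨Y, hY0, hY⟩ := h y hy hI
  have hcore : ∀ t ∈ Metric.ball (0 : Fin r → ℂ) δ,
      ContinuousAt (fun t => (A.c i).symm (Y t).1) t ∧
      (A.c i).symm (Y t).1 ∈ (A.c i).source ∧
      ∃ T : (Fin r → ℂ) →L[ℂ] E n,
        HasFDerivAt (𝕜 := ℂ) (A.c i ∘ fun t => (A.c i).symm (Y t).1) T t ∧
        (∀ ζ, T ζ = XX (B.wt i) (Y t).1 (bx (Y t).2 ζ)) ∧ IsFrame (B.wt i) (Y t).1 T := by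
    intro t ht
    obtain ⟨hU, hIt, hd⟩ := hY t ht
    have hYc : ContinuousAt Y t := hd.continuousAt
    have hc1 : ContinuousAt (fun t => (Y t).1) t := continuous_fst.continuousAt.comp hYc
    have hc : ContinuousAt (fun t => (A.c i).symm (Y t).1) t :=
      ContinuousAt.comp (g := (A.c i).symm) (f := fun t => (Y t).1)
        ((A.c i).continuousAt_symm hU) hc1
    obtain ⟨T, hT1, hT2⟩ := frame_of_inv (L i).loc hU hIt
    refine ⟨hc, (A.c i).map_target hU, T, ?_, hT1, hT2⟩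
    have hfst := (ContinuousLinearMap.fst ℝ (E n) (Fin r → E n)).hasFDerivAt.comp t hd
    have hev : (A.c i ∘ fun t => (A.c i).symm (Y t).1) =ᶠ[𝓝 t] fun t => (Y t).1 := by
      filter_upwards [hc1.eventually ((A.c i).open_target.mem_nhds hU)] with s hs
      exact (A.c i).right_inv hs
    have hreal : HasFDerivAt (𝕜 := ℝ) (A.c i ∘ fun t => (A.c i).symm (Y t).1)
        ((ContinuousLinearMap.fst ℝ (E n) (Fin r → E n)).comp (velL (B.wt i) (Y t))) t :=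
      HasFDerivAt.congr_of_eventuallyEq hfst hev
    refine hasFDerivAt_of_restrictScalars ℝ hreal ?_
    ext1 ξ
    show T ξ = (velL (B.wt i) (Y t) ξ).1
    rw [hT1]
    rfl
  refine ⟨fun t => (A.c i).symm (Y t).1, ?_, ?_, ?_, ?_⟩
  · show (A.c i).symm (Y 0).1 = (A.c i).symm y.1
    rw [hY0]
  · have h1 := (hY 0 (Metric.mem_ball_self hδ)).1
    rw [hY0] at h1
    exact h1
  · intro t ht
    obtain ⟨hc, hs, T, hT, -, hF⟩ := hcore t ht
    refine leafAt_of_chart B (fun j => (L j).loc) hc hs hT ?_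
    have h1 : A.c i ((fun t => (A.c i).symm (Y t).1) t) = (Y t).1 :=
      (A.c i).right_inv (hY t ht).1
    rw [h1]
    exact hF
  · obtain ⟨-, -, T, hT, hT1, -⟩ := hcore 0 (Metric.mem_ball_self hδ)
    refine ⟨T, hT, fun ζ => ?_⟩
    rw [hT1, hY0]

end Pool.Agent.LFN
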