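import Pool.Agent.LFN.Defs
import Pool.Agent.LFN.Glu
import Pool.Agent.LFC.Lim
import Pool.Agent.LFN.Lps
import Pool.Agent.LFN.Lcc
import Pool.Agent.LFN.Chb

/-!
Copy of Pool/Agent/LFC/Ext.lean with `Bundle` replaced by `Pot`.
Ext (size 5): completeness: `Dom` has no finite boundary point on a ray.
PROOF. `0 ∈ Dom` (`s = 0`). `Φ` from `dom_map`, `p s = Φ (s • ξ)`. For `s ∈ Ioo 0 s₂`: `s • ξ ∈ Dom` (open), `LeafAt B Φ (s • ξ)`, so `p` is continuous at `s`, and if `p s ∈ (A.c i).source` then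
`HasDerivAt (fun σ => A.c i (p σ)) (T ξ) s`, `T = fderiv ℂ (A.c i ∘ Φ) (s • ξ)` a frame; `T ξ = XX (B.wt i) (A.c i (p s)) b`, `levi b b = ∑ |ξ k|²`, so
`‖T ξ‖² ≤ C ∑ |ξ k|²` when `A.c i (p s) ∈ Q` (`bnd_X` in SKF/Bnd.lean). `cat` (`a = 0`): `i`, `Q`, `s₁ ∈ Ioo 0 s₂`. `N = {t ∈ Dom | Φ t ∈ (A.c i).source}`, `φ = A.c i ∘ Φ`:
`LeafC (B.wt i) (A.c i).target φ N` (`leafC_of`, `dom_open`). `z s = φ (s • ξ)`, `T s = fderiv ℂ φ (s • ξ)`: `od2` at `t = s • ξ` (shift the real variable) gives `hode`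
of `lim`. `lim` gives a state `y`, `y.1 ∈ Q ⊆ (A.c i).target`. `lps` at `y`: `ρ`, `δ`. Choose `s' < s₂` with `(s₂ - s') ‖ξ‖ < δ`, `s' ≥ 0`; `lim` gives `s ∈ Ioo s' s₂`, `b`. `lps`
for the state `(z s, b)`: `ψ 0 = (A.c i).symm (z s) = p s`, leaf map on `ball 0 δ`, derivative `T' ζ = XX _ (z s) (bx b ζ) = T s ζ` at `0`. `s • ξ ∈ Dom`: `Good .. Ω Φ'` with
`s • ξ ∈ Ω`, `Φ = Φ'` on `Ω` (`dom_map`), so `Φ'` has the same value and derivative at `s • ξ`. `glu` with `s₁ := s`.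
-/

open scoped ContDiff ComplexConjugate Topology
open Complex

namespace Pool.Agent.LFN

open Pool.Agent.DTW Pool.Agent.SKF Pool.Agent.LFC

variable {n r : ℕ} {X : Type*} [TopologicalSpace X] [T2Space X] {ι : Type*}
  {A : Atlas n X ι}

private theorem Ext_path {φ : (Fin r → ℂ) → E n} {T : (Fin r → ℂ) →L[ℂ] E n} {s : ℝ}
    {ξ : Fin r → ℂ} (hF : HasFDerivAt (𝕜 := ℂ) φ T (s • ξ)) :
    HasDerivAt (fun σ : ℝ => φ (σ • ξ)) (T ξ) s := by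
  have h1 : HasDerivAt (fun σ : ℝ => σ • ξ) ξ s := by
    have h0 := (hasDerivAt_id s).smul_const ξ
    rw [one_smul] at h0
    exact h0
  have h2 : HasFDerivAt φ (T.restrictScalars ℝ) (s • ξ) := hF.restrictScalars ℝ
  exact h2.comp_hasDerivAt s h1

private theorem Ext_shift {f : (Fin r → ℂ) → E n} {G : E n} {s : ℝ} {ξ : Fin r → ℂ}
    (hf : HasDerivAt (fun σ : ℝ => f (s • ξ + σ • ξ)) G 0) :
    HasDerivAt (fun σ : ℝ => f (σ • ξ)) G s := by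
  have h1 : HasDerivAt (fun σ : ℝ => f (s • ξ + σ • ξ)) G (s - s) := by
    rw [sub_self]
    exact hf
  have h2 := h1.comp_sub_const s s
  have h3 : (fun σ : ℝ => f (s • ξ + (σ - s) • ξ)) = fun σ : ℝ => f (σ • ξ) := by
    funext σ
    rw [← add_smul, add_sub_cancel]
  rw [h3] at h2
  exact h2

theorem ext (B : Pot A) (hc : Complete B) (L : ∀ i, LocB (B.wt i) (A.c i).target) {i₀ : ι} {x₀ : X}
    (hi : x₀ ∈ (A.c i₀).source) {T₀ : (Fin r → ℂ) →L[ℂ] E n} {ξ : Fin r → ℂ} {s₂ : ℝ}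
    (hs : 0 < s₂) (h : ∀ s ∈ Set.Ico 0 s₂, s • ξ ∈ Dom B i₀ x₀ T₀) :
    s₂ • ξ ∈ Dom B i₀ x₀ T₀ := by
  have L' : ∀ i, Loc (B.wt i) (A.c i).target := fun i => (L i).loc
  have h0D : (0 : Fin r → ℂ) ∈ Dom B i₀ x₀ T₀ := by
    have h1 := h 0 ⟨le_refl _, hs⟩
    rwa [zero_smul] at h1
  obtain ⟨Φ, hΦ, hΦ0, hΦT, hΦG⟩ := dom_map B L' hi h0D
  have hD : IsOpen (Dom B i₀ x₀ T₀) := dom_open B i₀ x₀ T₀
  have hDs : ∀ s ∈ Set.Ioo 0 s₂, s • ξ ∈ Dom B i₀ x₀ T₀ := fun s hs' => h s ⟨hs'.1.le, hs'.2⟩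
  have hcont : ∀ s ∈ Set.Ioo 0 s₂, ContinuousAt (fun σ : ℝ => Φ (σ • ξ)) s := by
    intro s hs'
    have h1 : ContinuousAt Φ (s • ξ) := (hΦ _ (hDs s hs')).1
    have h2 : ContinuousAt (fun σ : ℝ => σ • ξ) s := by fun_prop
    exact ContinuousAt.comp (f := fun σ : ℝ => σ • ξ) h1 h2
  have hvel : ∀ i, ∀ s ∈ Set.Ioo 0 s₂, Φ (s • ξ) ∈ (A.c i).source → ∃ b : E n,
      HasDerivAt (fun σ : ℝ => A.c i (Φ (σ • ξ))) (XX (B.wt i) (A.c i (Φ (s • ξ))) b) s ∧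
        (levi (B.wt i) (A.c i (Φ (s • ξ))) b b).re ≤ ∑ k, Complex.normSq (ξ k) := by
    intro i s hs' hsi
    obtain ⟨T, hT, hTF⟩ := (hΦ _ (hDs s hs')).2 i hsi
    obtain ⟨b, hb, hbl⟩ := hTF.1 ξ
    refine ⟨b, ?_, ?_⟩
    · rw [← hb]
      exact Ext_path (φ := A.c i ∘ Φ) hT
    · rw [hbl, Complex.ofReal_re]
  obtain ⟨i, Q, hQc, hQU, s₁, hs₁, hQ⟩ :=
    hc (fun σ : ℝ => Φ (σ • ξ)) 0 s₂ _ hs hcont hvel
  have hLC : LeafC (B.wt i) (A.c i).target (A.c i ∘ Φ)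
      {t | t ∈ Dom B i₀ x₀ T₀ ∧ Φ t ∈ (A.c i).source} := leafC_of B hD hΦ i
  have hN : ∀ s ∈ Set.Ico s₁ s₂,
      s • ξ ∈ {t | t ∈ Dom B i₀ x₀ T₀ ∧ Φ t ∈ (A.c i).source} := fun s hs' =>
    ⟨h s ⟨hs₁.1.le.trans hs'.1, hs'.2⟩, (hQ s hs').1⟩
  obtain ⟨y, hyQ, hyI, hy⟩ := lim (L' i) hQc hQU hs₁.2
    (z := fun s => (A.c i ∘ Φ) (s • ξ)) (T := fun s => fderiv ℂ (A.c i ∘ Φ) (s • ξ))
    (fun s hs' => (hQ s hs').2) (fun s hs' => (leafC_frame hLC (hN s hs')).2) ξ (by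
      intro s hs' ζ
      obtain ⟨G, hG, hG2⟩ := od2 (L' i) hLC (hN s hs') ξ ζ
      exact ⟨G, Ext_shift (f := fun t => fderiv ℂ (A.c i ∘ Φ) t ζ) hG, hG2⟩)
  obtain ⟨ρ, hρ, δ, hδ, hψ⟩ := lps B L (i := i) (y0 := y) (hQU hyQ)
  obtain ⟨s', hs'0, hs'2, hs'δ⟩ : ∃ s' : ℝ, 0 ≤ s' ∧ s' < s₂ ∧ (s₂ - s') * ‖ξ‖ < δ := by
    have hx : 0 < ‖ξ‖ + 1 := by positivity
    have hq : 0 < δ / (2 * (‖ξ‖ + 1)) := by positivity
    refine ⟨max 0 (s₂ - δ / (2 * (‖ξ‖ + 1))), le_max_left _ _, max_lt hs (by linarith), ?_⟩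
    have h1 : s₂ - max 0 (s₂ - δ / (2 * (‖ξ‖ + 1))) ≤ δ / (2 * (‖ξ‖ + 1)) := by
      have := le_max_right 0 (s₂ - δ / (2 * (‖ξ‖ + 1)))
      linarith
    calc (s₂ - max 0 (s₂ - δ / (2 * (‖ξ‖ + 1)))) * ‖ξ‖
        ≤ δ / (2 * (‖ξ‖ + 1)) * ‖ξ‖ := mul_le_mul_of_nonneg_right h1 (norm_nonneg _)
      _ ≤ δ / (2 * (‖ξ‖ + 1)) * (‖ξ‖ + 1) := by
          apply mul_le_mul_of_nonneg_left _ hq.le
          linarith
      _ = δ / 2 := by field_simp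
      _ < δ := by linarith
  obtain ⟨s, hss, hs1, b, hd, hbI, hbT⟩ := hy ρ hρ s' hs'2
  obtain ⟨ψ, hψ0, hzt, hψL, T', hT', hT'b⟩ := hψ _ hd hbI
  have hsI : s ∈ Set.Ico s₁ s₂ := ⟨hs1, hss.2⟩
  have hs0 : 0 ≤ s := hs'0.trans hss.1.le
  obtain ⟨Ω, Φ', hG, hΩ⟩ := h s ⟨hs0, hss.2⟩
  have hE : ∀ t ∈ Ω, Φ t = Φ' t := hΦG Ω Φ' hG
  have hp : Φ (s • ξ) ∈ (A.c i).source := (hN s hsI).2
  have hfd := (leafC_frame hLC (hN s hsI)).1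
  have hTT : fderiv ℂ (A.c i ∘ Φ) (s • ξ) = T' := by
    refine ContinuousLinearMap.ext fun ζ => ?_
    rw [hT'b ζ]
    exact hbT ζ
  rw [hTT] at hfd
  refine glu B L' hG (s₁ := s) (δ := δ) (ψ := ψ) (T := T') (i := i) hs0 hss.2.le hΩ ?_ hψL ?_ ?_
    ?_ hT'
  · rw [Metric.mem_ball, dist_eq_norm, ← sub_smul, norm_smul, Real.norm_eq_abs,
      abs_of_nonneg (by linarith [hss.2])]
    refine lt_of_le_of_lt ?_ hs'δ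
    exact mul_le_mul_of_nonneg_right (by linarith [hss.1]) (norm_nonneg _)
  · rw [hψ0, ← hE _ hΩ]
    exact (A.c i).left_inv hp
  · rw [← hE _ hΩ]
    exact hp
  · refine hfd.congr_of_eventuallyEq ?_
    filter_upwards [hG.op.mem_nhds hΩ] with t ht
    show A.c i (Φ' t) = A.c i (Φ t)
    rw [hE t ht]

end Pool.Agent.LFN
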