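import Pool.Agent.LFN.Defs
import Pool.Agent.LFN.Ext
import Pool.Agent.LFN.Lcc
import Pool.Agent.LFN.Chb

/-!
Copy of Pool/Agent/LFC/Glb.lean with `Bundle` replaced by `Pot`.
Glb (size 3): the global leaf map through a state.
PROOF. `x₀ = (A.c i).symm y.1`, `T₀` the frame of `frame_of_inv`. `0 ∈ Dom`: `lps` at `y0 = y` gives `ψ` on `ball 0 δ` (open, convex), `Good B i x₀ T₀ (ball 0 δ) ψ` (the two derivatives agree:
`ContinuousLinearMap.ext`). `Dom = univ`: suppose `t ∉ Dom`; `Z = {s ∈ Icc 0 1 | s • t ∉ Dom}` is closed (`dom_open`), contains `1`; `s₂ = sInf Z ∈ Z`, `s₂ > 0` because `0 ∈ Dom`; for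
`0 ≤ s < s₂`, `s • t ∈ Dom`; `ext` gives `s₂ • t ∈ Dom`, a contradiction. `dom_map`.
-/

open scoped ContDiff ComplexConjugate Topology
open Complex

namespace Pool.Agent.LFN

open Pool.Agent.DTW Pool.Agent.SKF Pool.Agent.LFC

variable {n r : ℕ} {X : Type*} [TopologicalSpace X] [T2Space X] {ι : Type*}
  {A : Atlas n X ι}

private theorem Glb_univ (B : Pot A) (hc : Complete B) (L : ∀ i, LocB (B.wt i) (A.c i).target) {i₀ : ι} {x₀ : X}
    (hi : x₀ ∈ (A.c i₀).source) {T₀ : (Fin r → ℂ) →L[ℂ] E n}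
    (h0 : (0 : Fin r → ℂ) ∈ Dom B i₀ x₀ T₀) (t : Fin r → ℂ) : t ∈ Dom B i₀ x₀ T₀ := by
  by_contra ht
  set Z : Set ℝ := Set.Icc 0 1 ∩ (fun s : ℝ => s • t) ⁻¹' (Dom B i₀ x₀ T₀)ᶜ with hZ
  have hcl : IsClosed Z := by
    refine isClosed_Icc.inter ?_
    refine IsClosed.preimage (by fun_prop) ?_
    exact (dom_open B i₀ x₀ T₀).isClosed_compl
  have h1 : (1 : ℝ) ∈ Z := by
    refine ⟨⟨zero_le_one, le_refl _⟩, ?_⟩
    simpa using ht
  have hbd : BddBelow Z := ⟨0, fun s hs => hs.1.1⟩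
  have hmem : sInf Z ∈ Z := hcl.csInf_mem ⟨1, h1⟩ hbd
  have hnn : 0 ≤ sInf Z := hmem.1.1
  have hpos : 0 < sInf Z := by
    rcases hnn.lt_or_eq with h | h
    · exact h
    · exfalso
      have h2 := hmem.2
      rw [← h] at h2
      simp only [Set.mem_preimage, zero_smul, Set.mem_compl_iff] at h2
      exact h2 h0
  refine hmem.2 (ext B hc L hi hpos ?_)
  intro s hs
  by_contra hns
  have : s ∈ Z := ⟨⟨hs.1, hs.2.le.trans hmem.1.2⟩, hns⟩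
  exact absurd (csInf_le hbd this) (not_le.mpr hs.2)

theorem glb (B : Pot A) (hc : Complete B) (L : ∀ i, LocB (B.wt i) (A.c i).target) {i : ι}
    {y : E n × (Fin r → E n)} (hy : y.1 ∈ (A.c i).target) (hI : InvP (B.wt i) y) :
    ∃ Φ : (Fin r → ℂ) → X, Φ 0 = (A.c i).symm y.1 ∧ (∀ t, LeafAt B Φ t) ∧
      ∃ T : (Fin r → ℂ) →L[ℂ] E n, HasFDerivAt (𝕜 := ℂ) (A.c i ∘ Φ) T 0 ∧
        ∀ ζ, T ζ = XX (B.wt i) y.1 (bx y.2 ζ) := by
  obtain ⟨ρ, hρ, δ, hδ, hl⟩ := lps B L hy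
  obtain ⟨ψ, hψ0, -, hlf, T, hT, hTX⟩ := hl y (by rw [dist_self]; exact hρ) hI
  have hsrc : (A.c i).symm y.1 ∈ (A.c i).source := (A.c i).map_target hy
  have hG : Good B i ((A.c i).symm y.1) T (Metric.ball 0 δ) ψ :=
    { op := Metric.isOpen_ball
      cv := convex_ball 0 δ
      z0 := Metric.mem_ball_self hδ
      lf := hlf
      v0 := hψ0
      d0 := hT }
  have h0 : (0 : Fin r → ℂ) ∈ Dom B i ((A.c i).symm y.1) T :=
    ⟨Metric.ball 0 δ, ψ, hG, Metric.mem_ball_self hδ⟩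
  obtain ⟨Φ, hΦ, hΦ0, hΦT, -⟩ := dom_map B (fun i => (L i).loc) hsrc h0
  exact ⟨Φ, hΦ0, fun t => hΦ t (Glb_univ B hc L hsrc h0 t), T, hΦT, hTX⟩

end Pool.Agent.LFN
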