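import Pool.Agent.LFC.Defs
import Pool.Agent.NSK.Defs
import Pool.Agent.DTW.Glo

/-!
Definitions: compact normal complex spaces with a holomorphic symplectic form on the regular part
(as in NSK, with the Poisson brackets of the coordinates of the local embeddings holomorphic
functions of these coordinates), and leaf maps.
-/

open scoped ContDiff ComplexConjugate Topology
open Complex

namespace Pool.Agent.LFN

open Pool.Agent.DTW Pool.Agent.SKF Pool.Agent.NSK Pool.Agent.LFC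

/-- A normal complex space `X` of dimension `2n` with a holomorphic symplectic form on its regular
part: holomorphic Darboux charts `c i` of the regular part, and an open cover by sets `V k` with
local embeddings `ζ k : V k → ℂ^(2m)`. In a normal space the Poisson brackets of the coordinates
of an embedding extend to holomorphic functions on `V k`, so they are locally holomorphic
functions of the coordinates, and the minors of the differential of an embedding in Darboux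
charts tend to `0` at the singular points. -/
structure Variety (n m : ℕ) (X : Type*) [TopologicalSpace X] (ι κ : Type*) where
  /-- Darboux charts of the regular part -/
  c : ι → OpenPartialHomeomorph X (E n)
  hol : ∀ i j, ContDiffOn ℂ ∞ (c j ∘ (c i).symm)
    {z | z ∈ (c i).target ∧ (c i).symm z ∈ (c j).source}
  symp : ∀ i j z, z ∈ (c i).target → (c i).symm z ∈ (c j).source → ∀ a b : E n,
    S (fderiv ℂ (c j ∘ (c i).symm) z a) (fderiv ℂ (c j ∘ (c i).symm) z b) = S a b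
  /-- open cover -/
  V : κ → Set X
  isOpen : ∀ k, IsOpen (V k)
  cover : ∀ x : X, ∃ k, x ∈ V k
  /-- local embeddings -/
  ζ : κ → X → E m
  cont : ∀ k, ContinuousOn (ζ k) (V k)
  inj : ∀ k, Set.InjOn (ζ k) (V k)
  holo : ∀ k i, ContDiffOn ℂ ∞ (ζ k ∘ (c i).symm) {z | z ∈ (c i).target ∧ (c i).symm z ∈ V k}
  immersion : ∀ k i z, z ∈ (c i).target → (c i).symm z ∈ V k →
    ∃ J : Ix n → Ix m, minor (fun p y => ζ k ((c i).symm y) (J p)) z ≠ 0
  glue : ∀ k l x, x ∈ V k → x ∈ V l → ∃ (O : Set X) (O' : Set (E m)) (G : E m → E m), IsOpen O ∧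
    x ∈ O ∧ IsOpen O' ∧ ContDiffOn ℂ ∞ G O' ∧ ∀ y ∈ O, ζ k y ∈ O' ∧ ζ l y = G (ζ k y)
  poisson : ∀ k x, x ∈ V k → ∃ (O : Set X) (O' : Set (E m)) (P : Ix m → Ix m → E m → ℂ),
    IsOpen O ∧ x ∈ O ∧ IsOpen O' ∧ (∀ I J, ContDiffOn ℂ ∞ (P I J) O') ∧ (∀ y ∈ O, ζ k y ∈ O') ∧
    ∀ i z, z ∈ (c i).target → (c i).symm z ∈ O → ∀ I J : Ix m,
      bracket (fun y => ζ k ((c i).symm y) I) (fun y => ζ k ((c i).symm y) J) z
        = P I J (ζ k ((c i).symm z))
  minors : ∀ k x, x ∈ V k → (∀ i, x ∉ (c i).source) → ∀ ε : ℝ, 0 < ε →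
    ∃ O : Set X, IsOpen O ∧ x ∈ O ∧ ∀ i z, z ∈ (c i).target → (c i).symm z ∈ O →
      ∀ J : Ix n → Ix m, ‖minor (fun p y => ζ k ((c i).symm y) (J p)) z‖ ≤ ε

variable {n m r : ℕ} {X : Type*} [TopologicalSpace X] {ι κ : Type*}

theorem Variety.brackets (A : Variety n m X ι κ) (k : κ) (x : X) (hx : x ∈ A.V k) :
    ∃ (O : Set X) (C : ℝ), IsOpen O ∧ x ∈ O ∧
      ∀ i z, z ∈ (A.c i).target → (A.c i).symm z ∈ O → ∀ I J : Ix m,
        ‖bracket (fun y => A.ζ k ((A.c i).symm y) I) (fun y => A.ζ k ((A.c i).symm y) J) z‖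
          ≤ C := by
  obtain ⟨O, O', P, hO, hxO, hO', hP, hm, hb⟩ := A.poisson k x hx
  obtain ⟨ρ, hρ, hball⟩ := Metric.isOpen_iff.1 hO' _ (hm x hxO)
  have hcl : Metric.closedBall (A.ζ k x) (ρ / 2) ⊆ O' :=
    (Metric.closedBall_subset_ball (by linarith)).trans hball
  have hbd : ∀ I J, ∃ C : ℝ, ∀ y ∈ Metric.closedBall (A.ζ k x) (ρ / 2), ‖P I J y‖ ≤ C :=
    fun I J => (isCompact_closedBall _ _).exists_bound_of_continuousOn
      ((hP I J).continuousOn.mono hcl)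
  choose C hC using hbd
  refine ⟨(O ∩ A.V k) ∩ A.ζ k ⁻¹' Metric.ball (A.ζ k x) (ρ / 2), ∑ I, ∑ J, |C I J|, ?_, ?_, ?_⟩
  · exact ((A.cont k).mono Set.inter_subset_right).isOpen_inter_preimage
      (hO.inter (A.isOpen k)) Metric.isOpen_ball
  · exact ⟨⟨hxO, hx⟩, Metric.mem_ball_self (by linarith)⟩
  · intro i z hz hzO I J
    rw [hb i z hz hzO.1.1 I J]
    refine (hC I J _ (Metric.ball_subset_closedBall hzO.2)).trans ((le_abs_self _).trans ?_)
    calc |C I J| ≤ ∑ J, |C I J| :=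
          Finset.single_le_sum (f := fun J => |C I J|) (fun _ _ => abs_nonneg _)
            (Finset.mem_univ J)
      _ ≤ ∑ I, ∑ J, |C I J| :=
          Finset.single_le_sum (f := fun I => ∑ J, |C I J|)
            (fun _ _ => Finset.sum_nonneg fun _ _ => abs_nonneg _) (Finset.mem_univ I)

/-- the data of NSK -/
def Variety.toSpace (A : Variety n m X ι κ) : Space n m X ι κ where
  c := A.c
  hol := A.hol
  symp := A.symp
  V := A.V
  isOpen := A.isOpen
  cover := A.cover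
  ζ := A.ζ
  cont := A.cont
  inj := A.inj
  holo := A.holo
  immersion := A.immersion
  glue := A.glue
  brackets := A.brackets
  minors := A.minors

/-- `Φ` is at `t` a holomorphic isometric parametrisation of a leaf in the regular part of `X`. -/
def LeafX {A : Space n m X ι κ} (η : Form A) (Φ : (Fin r → ℂ) → X) (t : Fin r → ℂ) : Prop :=
  (∃ i, Φ t ∈ (A.c i).source) ∧ ContinuousAt Φ t ∧
    ∀ i, Φ t ∈ (A.c i).source → ∃ T : (Fin r → ℂ) →L[ℂ] E n,
      HasFDerivAt (𝕜 := ℂ) (A.c i ∘ Φ) T t ∧ IsFrame (η.w i) (A.c i (Φ t)) T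

/-! Auxiliary notions for the proof. -/

/-- potentials in the charts of an atlas, with the same Levi forms -/
structure Pot (A : Atlas n X ι) where
  /-- the potentials -/
  wt : ι → E n → ℝ
  smooth : ∀ i, ContDiffOn ℝ ∞ (wt i) (A.c i).target
  compat : ∀ i j, ∀ z ∈ Uo A i j, ∀ a b : E n, levi (wt i) z a b
    = levi (wt j) (ph A i j z) (fderiv ℂ (ph A i j) z a) (fderiv ℂ (ph A i j) z b)

variable {A : Atlas n X ι}

/-- `Φ` is at `t` a holomorphic isometric parametrisation of a leaf. -/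
def LeafAt (B : Pot A) (Φ : (Fin r → ℂ) → X) (t : Fin r → ℂ) : Prop :=
  ContinuousAt Φ t ∧ ∀ i, Φ t ∈ (A.c i).source → ∃ T : (Fin r → ℂ) →L[ℂ] E n,
    HasFDerivAt (𝕜 := ℂ) (A.c i ∘ Φ) T t ∧ IsFrame (B.wt i) (A.c i (Φ t)) T

/-- a leaf map on the convex open set `Ω ∋ 0` with given value and derivative at `0` -/
structure Good (B : Pot A) (i₀ : ι) (x₀ : X) (T₀ : (Fin r → ℂ) →L[ℂ] E n)
    (Ω : Set (Fin r → ℂ)) (Φ : (Fin r → ℂ) → X) : Prop where
  op : IsOpen Ω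
  cv : Convex ℝ Ω
  z0 : (0 : Fin r → ℂ) ∈ Ω
  lf : ∀ t ∈ Ω, LeafAt B Φ t
  v0 : Φ 0 = x₀
  d0 : HasFDerivAt (𝕜 := ℂ) (A.c i₀ ∘ Φ) T₀ 0

/-- the domain of the maximal leaf map -/
def Dom (B : Pot A) (i₀ : ι) (x₀ : X) (T₀ : (Fin r → ℂ) →L[ℂ] E n) : Set (Fin r → ℂ) :=
  {t | ∃ (Ω : Set (Fin r → ℂ)) (Φ : (Fin r → ℂ) → X), Good B i₀ x₀ T₀ Ω Φ ∧ t ∈ Ω}

/-- No finite escape: a path in `X` with velocities `X_b`, `|X_b|² = F(b, b̄) ≤ K` on `(a, s₂)` stays
near `s₂` in a compact subset of one chart. -/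
def Complete (B : Pot A) : Prop :=
  ∀ (p : ℝ → X) (a s₂ K : ℝ), a < s₂ → (∀ s ∈ Set.Ioo a s₂, ContinuousAt p s) →
    (∀ i, ∀ s ∈ Set.Ioo a s₂, p s ∈ (A.c i).source → ∃ b : E n,
      HasDerivAt (fun σ => A.c i (p σ)) (XX (B.wt i) (A.c i (p s)) b) s ∧
        (levi (B.wt i) (A.c i (p s)) b b).re ≤ K) →
    ∃ (i : ι) (Q : Set (E n)), IsCompact Q ∧ Q ⊆ (A.c i).target ∧ ∃ s₁ ∈ Set.Ioo a s₂,
      ∀ s ∈ Set.Ico s₁ s₂, p s ∈ (A.c i).source ∧ A.c i (p s) ∈ Q

end Pool.Agent.LFN
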