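import Pool.Agent.LFN.Defs
import Pool.Agent.LFN.Crl
import Pool.Agent.LFN.Rep
import Pool.Agent.LFN.Prp
import Pool.Agent.LFC.Ini
import Pool.Agent.LFN.Dck
import Pool.Agent.LFN.Inj
import Pool.Agent.LFN.Lcc
import Pool.Agent.LFN.Chb

/-!
Copy of Pool/Agent/LFC/Fin.lean with `Bundle` replaced by `Pot`.
Assembly of the theorem on the leaves.
-/

open scoped ContDiff ComplexConjugate Topology
open Complex MeasureTheory

namespace Pool.Agent.LFN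

open Pool.Agent.DTW Pool.Agent.SKF Pool.Agent.LFC

variable {n : ℕ} {X : Type*} [TopologicalSpace X] [T2Space X] {ι : Type*}
  {A : Atlas n X ι}

theorem exists_leaf (B : Pot A) (hc : Complete B) (L : ∀ i, LocB (B.wt i) (A.c i).target) (x : X) :
    ∃ (r : ℕ) (Φ : (Fin r → ℂ) → X), Φ 0 = x ∧ ∀ t, LeafAt B Φ t := by
  have hx := mem_ix A x
  have hz : A.c (ix A x) x ∈ (A.c (ix A x)).target := (A.c (ix A x)).map_source hx
  obtain ⟨r, b, hb⟩ := ini (L (ix A x)).loc hz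
  obtain ⟨Φ, h0, hΦ, -⟩ := glb B hc L (y := (A.c (ix A x) x, b)) hz hb
  refine ⟨r, Φ, ?_, hΦ⟩
  rw [h0]
  exact (A.c (ix A x)).left_inv hx

/-- The relation of lying in the same leaf. -/
theorem leaf_symm (B : Pot A) (L : ∀ i, LocB (B.wt i) (A.c i).target) {r r' : ℕ}
    {Φ : (Fin r → ℂ) → X} {Ψ : (Fin r' → ℂ) → X} (hΦ : ∀ t, LeafAt B Φ t)
    (hΨ : ∀ t, LeafAt B Ψ t) {s : Fin r → ℂ} {t : Fin r' → ℂ} (h : Φ s = Ψ t)
    (s' : Fin r → ℂ) : ∃ t', Φ s' = Ψ t' := by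
  obtain ⟨V, -, hV⟩ := dck B (fun i => (L i).loc) hΦ hΨ h
  refine ⟨t + V (s' - s), ?_⟩
  rw [← hV]
  congr 1
  abel

theorem crv (B : Pot A) (hc : Complete B) (L : ∀ i, LocB (B.wt i) (A.c i).target) {γ : ℝ → X} {a b : ℝ}
    (hγ : ∀ s ∈ Set.Icc a b, TanAt B γ s) {r : ℕ} {Φ : (Fin r → ℂ) → X}
    (hΦ : ∀ t, LeafAt B Φ t) {t₀ : Fin r → ℂ} (h0 : γ a = Φ t₀) :
    ∀ s ∈ Set.Icc a b, ∃ t, γ s = Φ t := by
  -- local statement
  have key : ∀ s₀ ∈ Set.Icc a b, ∃ ε > 0, ∀ s ∈ Set.Ioo (s₀ - ε) (s₀ + ε),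
      ((∃ t, γ s = Φ t) ↔ ∃ t, γ s₀ = Φ t) := by
    intro s₀ hs₀
    obtain ⟨r', Ψ, hΨ0, hΨ⟩ := exists_leaf B hc L (γ s₀)
    obtain ⟨ε, hε, h⟩ := crl B L (hγ s₀ hs₀) hΨ hΨ0
    refine ⟨ε, hε, fun s hs => ?_⟩
    obtain ⟨u, hu⟩ := h s hs
    constructor
    · rintro ⟨t, ht⟩
      obtain ⟨t', ht'⟩ := leaf_symm B L hΨ hΦ (s := u) (t := t) (by rw [← hu, ht]) 0
      exact ⟨t', by rw [← ht', hΨ0]⟩
    · rintro ⟨t, ht⟩
      obtain ⟨t', ht'⟩ := leaf_symm B L hΨ hΦ (s := 0) (t := t) (by rw [hΨ0, ht]) u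
      exact ⟨t', by rw [← ht', hu]⟩
  rcases lt_or_ge b a with hab | hab
  · intro s hs
    exact absurd (hs.1.trans hs.2) (not_le.2 hab)
  have hcl : IsClosed ({s | ∃ t, γ s = Φ t} ∩ Set.Icc a b) := by
    rw [← isSeqClosed_iff_isClosed]
    intro u x hu hx
    have hxI : x ∈ Set.Icc a b := isClosed_Icc.mem_of_tendsto hx
      (Filter.Eventually.of_forall fun k => (hu k).2)
    obtain ⟨ε, hε, h⟩ := key x hxI
    have h1 : ∀ᶠ k in Filter.atTop, u k ∈ Set.Ioo (x - ε) (x + ε) :=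
      hx.eventually (Ioo_mem_nhds (by linarith) (by linarith))
    obtain ⟨k, hk⟩ := h1.exists
    exact ⟨(h _ hk).1 (hu k).1, hxI⟩
  refine hcl.Icc_subset_of_forall_exists_gt ⟨t₀, h0⟩ ?_
  intro x hx y hy
  obtain ⟨ε, hε, h⟩ := key x ⟨hx.2.1, hx.2.2.le⟩
  have hy' : x < y := hy
  refine ⟨min y (x + ε / 2), ?_, ?_⟩
  · refine (h _ ⟨?_, ?_⟩).2 hx.1
    · have : x < min y (x + ε / 2) := lt_min hy' (by linarith)
      linarith
    · have : min y (x + ε / 2) ≤ x + ε / 2 := min_le_right _ _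
      linarith
  · exact ⟨lt_min hy' (by linarith), min_le_left _ _⟩

/-- Near the time `s₀` the curve `γ` in `X` is tangent to the leaves: its velocity `v(s)` in the
charts satisfies `σ(v(s), ·) = η(·, b(s)‾)` with `b` continuous. -/
def IsNullCurve (B : Pot A) (γ : ℝ → X) (s₀ : ℝ) : Prop :=
  ContinuousAt γ s₀ ∧ ∀ i, γ s₀ ∈ (A.c i).source → ∃ ε > 0, ∃ v b : ℝ → E n,
    ContinuousOn b (Set.Ioo (s₀ - ε) (s₀ + ε)) ∧ ∀ s ∈ Set.Ioo (s₀ - ε) (s₀ + ε),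
      γ s ∈ (A.c i).source ∧ HasDerivAt (fun σ => A.c i (γ σ)) (v s) s ∧
        ∀ m : E n, S (v s) m = levi (B.wt i) (A.c i (γ s)) m (b s)

theorem isNullCurve_iff (B : Pot A) (L : ∀ i, Loc (B.wt i) (A.c i).target) (γ : ℝ → X)
    (s₀ : ℝ) : IsNullCurve B γ s₀ ↔ TanAt B γ s₀ := by
  constructor
  · rintro ⟨hc, h⟩
    refine ⟨hc, fun i hi => ?_⟩
    obtain ⟨ε, hε, v, b, hb, h⟩ := h i hi
    refine ⟨ε, hε, b, hb, fun s hs => ?_⟩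
    obtain ⟨h1, h2, h3⟩ := h s hs
    have h4 : v s = XX (B.wt i) (A.c i (γ s)) (b s) :=
      S_left_inj fun m => by rw [h3 m, S_X (L i) ((A.c i).map_source h1)]
    rw [← h4]
    exact ⟨h1, h2⟩
  · rintro ⟨hc, h⟩
    refine ⟨hc, fun i hi => ?_⟩
    obtain ⟨ε, hε, b, hb, h⟩ := h i hi
    refine ⟨ε, hε, fun s => XX (B.wt i) (A.c i (γ s)) (b s), b, hb, fun s hs => ?_⟩
    obtain ⟨h1, h2⟩ := h s hs
    exact ⟨h1, h2, fun m => S_X (L i) ((A.c i).map_source h1) _ _⟩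

end Pool.Agent.LFN
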