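import Pool.Agent.LFN.Fin
import Pool.Agent.LFN.Cpl
import Pool.Agent.NSK.ResN

/-!
Assembly: leaf maps into the regular part of a compact normal symplectic variety.
-/

open scoped ContDiff ComplexConjugate Topology
open Complex

namespace Pool.Agent.LFN

open Pool.Agent.DTW Pool.Agent.SKF Pool.Agent.NSK Pool.Agent.LFC

variable {n m r : ℕ} {X : Type*} [TopologicalSpace X] {ι κ : Type*}

/-- `Φ : ℂ^r → X` is a leaf map: a holomorphic map into the regular part of `X`, `r` is the rank of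
`η` at its points, in every Darboux chart its derivative `T` at `t` is injective with range the
`σ`-orthogonal of the kernel of `η`, and isometric: if `b` is a vector with `σ(T ζ, ·) = η(·, b̄)`
then `η(b, b̄) = |ζ|²`. -/
def LeafMap {A : Space n m X ι κ} (η : Form A) (Φ : (Fin r → ℂ) → X) : Prop :=
  Continuous Φ ∧ ∀ t, (∃ i, Φ t ∈ (A.c i).source) ∧ ∀ i, Φ t ∈ (A.c i).source →
    r + Module.finrank ℂ (kerL (η.w i) (A.c i (Φ t))) = 2 * n ∧
    ∃ T : (Fin r → ℂ) →L[ℂ] E n, HasFDerivAt (𝕜 := ℂ) (A.c i ∘ Φ) T t ∧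
      Function.Injective T ∧
      (∀ a : E n, (∃ ζ, T ζ = a) ↔ ∀ c ∈ kerL (η.w i) (A.c i (Φ t)), S a c = 0) ∧
      ∀ (ζ : Fin r → ℂ) (b : E n),
        (∀ a, S (T ζ) a = levi (η.w i) (A.c i (Φ t)) a b) →
        levi (η.w i) (A.c i (Φ t)) b b = ((∑ k, Complex.normSq (ζ k) : ℝ) : ℂ)

/-- The curve `γ` is at the time `s₀` in the regular part of `X`, and near `s₀` it is tangent to
the leaves: its velocity `v(s)` in the Darboux charts satisfies `σ(v(s), ·) = η(·, b(s)‾)` with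
`b` continuous. -/
def NullCurve {A : Space n m X ι κ} (η : Form A) (γ : ℝ → X) (s₀ : ℝ) : Prop :=
  ContinuousAt γ s₀ ∧ (∃ i, γ s₀ ∈ (A.c i).source) ∧ ∀ i, γ s₀ ∈ (A.c i).source →
    ∃ ε > 0, ∃ v b : ℝ → E n, ContinuousOn b (Set.Ioo (s₀ - ε) (s₀ + ε)) ∧
      ∀ s ∈ Set.Ioo (s₀ - ε) (s₀ + ε),
        γ s ∈ (A.c i).source ∧ HasDerivAt (fun σ => A.c i (γ σ)) (v s) s ∧
          ∀ a : E n, S (v s) a = levi (η.w i) (A.c i (γ s)) a (b s)

variable {A : Space n m X ι κ}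

theorem leafMap_iff [Nonempty A.reg] (η : Form A) (Φ : (Fin r → ℂ) → A.reg) :
    IsLeafMap (subPot η) Φ ↔ LeafMap η fun t => (Φ t).1 := by
  constructor
  · rintro ⟨hc, h⟩
    exact ⟨continuous_subtype_val.comp hc, fun t => ⟨(Φ t).2, fun i hi => h t i hi⟩⟩
  · rintro ⟨hc, h⟩
    exact ⟨Topology.IsInducing.subtypeVal.continuous_iff.2 hc, fun t i hi => (h t).2 i hi⟩

theorem leafMap_lift [Nonempty A.reg] (η : Form A) {Φ : (Fin r → ℂ) → X} (h : LeafMap η Φ) :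
    ∃ Φ' : (Fin r → ℂ) → A.reg, IsLeafMap (subPot η) Φ' ∧ ∀ t, (Φ' t).1 = Φ t := by
  refine ⟨fun t => ⟨Φ t, (h.2 t).1⟩, ?_, fun t => rfl⟩
  exact (leafMap_iff η fun t => ⟨Φ t, (h.2 t).1⟩).2 h

theorem nullCurve_lift [Nonempty A.reg] (η : Form A) (γ : ℝ → X) :
    ∃ γ' : ℝ → A.reg, (∀ s, (∃ i, γ s ∈ (A.c i).source) → (γ' s).1 = γ s) ∧
      ∀ s, NullCurve η γ s → IsNullCurve (subPot η) γ' s := by
  classical
  obtain ⟨x0⟩ : Nonempty A.reg := inferInstance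
  refine ⟨fun s => if h : ∃ i, γ s ∈ (A.c i).source then ⟨γ s, h⟩ else x0,
    fun s hs => by simp only [hs, dif_pos], fun s₀ h => ?_⟩
  set γ' : ℝ → A.reg := fun s => if h : ∃ i, γ s ∈ (A.c i).source then ⟨γ s, h⟩ else x0
    with hγ'
  have hval : ∀ s, (∃ i, γ s ∈ (A.c i).source) → (γ' s).1 = γ s := fun s hs => by
    simp only [hγ', hs, dif_pos]
  obtain ⟨hc, hr, h⟩ := h
  have hev : ∀ᶠ s in 𝓝 s₀, (γ' s).1 = γ s := by
    filter_upwards [hc.preimage_mem_nhds ((reg_open A).mem_nhds hr)] with s hs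
    exact hval s hs
  refine ⟨?_, fun i hi => ?_⟩
  · rw [Topology.IsInducing.subtypeVal.continuousAt_iff]
    exact hc.congr (hev.mono fun s hs => hs.symm)
  · have hi' : γ s₀ ∈ (A.c i).source := by
      rw [← hval s₀ hr]
      exact hi
    obtain ⟨ε, hε, v, b, hb, hs⟩ := h i hi'
    refine ⟨ε, hε, v, b, hb, fun s hsI => ?_⟩
    obtain ⟨h1, h2, h3⟩ := hs s hsI
    have e1 : (γ' s).1 = γ s := hval s ⟨i, h1⟩
    refine ⟨?_, ?_, fun a => ?_⟩
    · show (γ' s).1 ∈ (A.c i).source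
      rw [e1]
      exact h1
    · refine h2.congr_of_eventuallyEq ?_
      filter_upwards [Ioo_mem_nhds hsI.1 hsI.2] with σ hσ
      show A.c i (γ' σ).1 = A.c i (γ σ)
      rw [hval σ ⟨i, (hs σ hσ).1⟩]
    · show S (v s) a = levi (η.w i) (A.c i (γ' s).1) a (b s)
      rw [e1]
      exact h3 a

theorem nullCurve_of [Nonempty A.reg] (η : Form A) {γ' : ℝ → A.reg} {s₀ : ℝ}
    (h : IsNullCurve (subPot η) γ' s₀) : NullCurve η (fun s => (γ' s).1) s₀ :=
  ⟨continuous_subtype_val.continuousAt.comp h.1, (γ' s₀).2, fun i hi => h.2 i hi⟩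

variable [CompactSpace X] [T2Space X]

theorem locB_sub [Nonempty A.reg] (η : Form A) (i : ι) :
    LocB ((subPot η).wt i) ((subAtlas A).c i).target :=
  ⟨loc_of η i, fin_BfN η i⟩

end Pool.Agent.LFN
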