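import Pool.Agent.LFN.Defs

/-!
Mch (size 2): chain rule in one row of a minor.
PROOF. `d10 g z (e q) = d10 (P ∘ Z) z (e q) = fderiv ℂ P (Z z) (fderiv ℂ Z z (e q)) = ∑ L, fderiv ℂ P (Z z) (e L) * d10 (fun y => Z y L) z (e q)`
(`d10` of a holomorphic function is `fderiv ℂ`; `Z z' = ∑ L, Z z' L • e L`); the minor is linear in the row `p`
(`Matrix.det_updateRow_sum`-type lemma, `det_updateRow_add`, `det_updateRow_smul`, or `Matrix.det` as a multilinear map
`Matrix.detRowAlternating`, `map_update_sum`).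
-/

open scoped ContDiff ComplexConjugate Topology
open Complex

namespace Pool.Agent.LFN

open Pool.Agent.DTW Pool.Agent.SKF Pool.Agent.NSK Pool.Agent.LFC

variable {n m : ℕ}

private theorem mch_coord {Z : E n → E m} {z : E n} (hZ : DifferentiableAt ℂ Z z) (I : Ix m)
    (a : E n) : d10 (fun y => Z y I) z a = fderiv ℂ Z z a I := by
  have h : HasFDerivAt (fun y => Z y I)
      ((ContinuousLinearMap.proj (R := ℂ) (φ := fun _ : Ix m => ℂ) I).comp (fderiv ℂ Z z)) z :=
    ((ContinuousLinearMap.proj (R := ℂ) (φ := fun _ : Ix m => ℂ) I).hasFDerivAt).comp z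
      hZ.hasFDerivAt
  rw [d10_of_diff h.differentiableAt, h.fderiv]
  rfl

private theorem mch_row (f : Ix n → E n → ℂ) (p : Ix n) (g : E n → ℂ) (z : E n) :
    minor (Function.update f p g) z
      = ((Matrix.of fun p q : Ix n => d10 (f p) z (e q)).updateRow p
          fun q => d10 g z (e q)).det := by
  unfold minor
  congr 1
  ext p' q
  by_cases h : p' = p
  · subst h
    simp [Matrix.updateRow_self]
  · simp [Matrix.updateRow_ne h, Function.update_of_ne h]

private theorem mch_det {κ : Type*} (s : Finset κ) (M : Matrix (Ix n) (Ix n) ℂ) (p : Ix n)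
    (c : κ → ℂ) (v : κ → Ix n → ℂ) :
    (M.updateRow p (fun q => ∑ L ∈ s, c L * v L q)).det
      = ∑ L ∈ s, c L * (M.updateRow p (v L)).det := by
  classical
  induction s using Finset.induction_on with
  | empty =>
    simp only [Finset.sum_empty]
    exact Matrix.det_eq_zero_of_row_eq_zero p fun j => by simp [Matrix.updateRow_self]
  | insert a s ha ih =>
    have h : (fun q => ∑ L ∈ insert a s, c L * v L q)
        = c a • v a + fun q => ∑ L ∈ s, c L * v L q := by
      funext q
      simp [Finset.sum_insert ha]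
    rw [h, Matrix.det_updateRow_add, Matrix.det_updateRow_smul, ih, Finset.sum_insert ha]

theorem mch {U : Set (E n)} (hU : IsOpen U) {Z : E n → E m} (hZ : ContDiffOn ℂ ∞ Z U)
    {O' : Set (E m)} (hO' : IsOpen O') {P : E m → ℂ} (hP : ContDiffOn ℂ ∞ P O') {z : E n}
    (hz : z ∈ U) (hZz : Z z ∈ O') (f : Ix n → E n → ℂ) (p : Ix n) {g : E n → ℂ}
    (hg : g =ᶠ[𝓝 z] fun y => P (Z y)) :
    minor (Function.update f p g) z
      = ∑ L, fderiv ℂ P (Z z) (e L) * minor (Function.update f p fun y => Z y L) z := by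
  have hZd : DifferentiableAt ℂ Z z := (hZ.contDiffAt (hU.mem_nhds hz)).differentiableAt (by simp)
  have hPd : DifferentiableAt ℂ P (Z z) :=
    (hP.contDiffAt (hO'.mem_nhds hZz)).differentiableAt (by simp)
  have hc : HasFDerivAt (fun y => P (Z y)) ((fderiv ℂ P (Z z)).comp (fderiv ℂ Z z)) z :=
    hPd.hasFDerivAt.comp z hZd.hasFDerivAt
  have hd : ∀ a : E n, d10 g z a = ∑ L, fderiv ℂ P (Z z) (e L) * d10 (fun y => Z y L) z a := by
    intro a
    have h1 : d10 g z a = d10 (fun y => P (Z y)) z a := by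
      unfold d10
      rw [hg.fderiv_eq]
    rw [h1, d10_of_diff hc.differentiableAt, hc.fderiv, ContinuousLinearMap.comp_apply]
    have h2 : fderiv ℂ Z z a = ∑ L, (fderiv ℂ Z z a) L • (e L : E m) := vec_eq_sum _
    conv_lhs => rw [h2]
    rw [map_sum]
    refine Finset.sum_congr rfl fun L _ => ?_
    rw [map_smul, smul_eq_mul, mch_coord hZd L a, mul_comm]
  rw [mch_row]
  have h3 : (fun q => d10 g z (e q))
      = fun q => ∑ L, fderiv ℂ P (Z z) (e L) * d10 (fun y => Z y L) z (e q) := by
    funext q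
    exact hd (e q)
  rw [h3, mch_det Finset.univ _ p (fun L => fderiv ℂ P (Z z) (e L))
    (fun L q => d10 (fun y => Z y L) z (e q))]
  refine Finset.sum_congr rfl fun L _ => ?_
  rw [mch_row]

end Pool.Agent.LFN
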