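import Pool.Agent.LFN.Brm
import Pool.Agent.LFN.Mch
import Pool.Agent.NSK.HmA

/-!
Mes (size 4): the minors of the embedding change slowly in the directions `X_b`.
PROOF. `g = minor (fun p y => Z y (J p))`, holomorphic on `U` (`minor_hol`), `h0 p = sg p * d10 g z (e p.swap)` (constant vector).
(i) `S h0 a = d10 g z a` (as `S_hv` in NSK/HmA: the same computation) and `levi w z h0 b = S (XX w z b) h0` (`S_XX` / `S_X` in LFC/Trl)
    `= - S h0 (XX w z b) = - d10 g z (XX w z b)`.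
(ii) Cauchy-Schwarz for the psd hermitian form `levi w z` (`h.loc`; see `Loc`, `Psd` in SKF, used the same way in NSK/BndN):
    `‖levi w z h0 b‖² ≤ (levi w z h0 h0).re * (levi w z b b).re`.
(iii) `levi w z h0 h0 = levi W (Z z) (fderiv ℂ Z z h0) (fderiv ℂ Z z h0)` (`h.compat`), real part `≤ H ‖fderiv ℂ Z z h0‖²`.
(iv) `fderiv ℂ Z z h0 I = d10 (fun y => Z y I) z h0 = bracket g (fun y => Z y I) z` (definition of `bracket`; reindex by `k ↦ k.swap` if needed, mind
    `sg k.swap = - sg k`: only the norm matters) `= ∑ p, minor (update (fun q y => Z y (J q)) p (bracket (Z · (J p)) (Z · I))) z` (`brm`)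
    `= ∑ p, ∑ L, fderiv ℂ (P (J p) I) (Z z) (e L) * minor (fun q y => Z y (update J p L q)) z` (`mch`, `hb` near `z`): norm `≤ 2n * 2m * D * M`
    (`Fintype.card (Ix n) = 2n`), the norm of `E m` is the sup norm.
-/

open scoped ContDiff ComplexConjugate Topology
open Complex

namespace Pool.Agent.LFN

open Pool.Agent.DTW Pool.Agent.SKF Pool.Agent.NSK Pool.Agent.LFC

variable {n m : ℕ} {w : E n → ℝ} {U : Set (E n)} {Z : E n → E m} {W : E m → ℝ} {B : Set (E m)}

/-- the Hamiltonian vector of `g` at `z` -/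
private noncomputable def Mes_h (g : E n → ℂ) (z : E n) : E n := fun p =>
  sg p * d10 g z (e p.swap)

private theorem Mes_levi (L : Loc w U) {z : E n} (hz : z ∈ U) (g : E n → ℂ) (b : E n) :
    levi w z (Mes_h g z) b = -d10 g z (XX w z b) := by
  have hw : ContDiffAt ℝ ∞ w z := L.sm.contDiffAt (L.op.mem_nhds hz)
  have h1 : levi w z (Mes_h g z) b = ∑ p, Mes_h g z p * levi w z (e p) b := by
    have h2 : levi w z (Mes_h g z) b
        = d10 (fun y => d01 (fun x => (w x : ℂ)) y b) z (Mes_h g z) := rfl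
    rw [h2, d10_eq_sum]
    rfl
  rw [h1, d10_eq_sum, ← sum_swap (fun k => XX w z b k * pk k g z), ← Finset.sum_neg_distrib]
  refine Finset.sum_congr rfl fun k _ => ?_
  rw [XX_apply hw, Sum.swap_swap, sg_swap]
  simp only [Mes_h, pk]
  ring

private theorem Mes_diff {z : E n} (hU : IsOpen U) (hZ : ContDiffOn ℂ ∞ Z U) (hz : z ∈ U) :
    DifferentiableAt ℂ Z z := (hZ.contDiffAt (hU.mem_nhds hz)).differentiableAt (by simp)

private theorem Mes_comp (hZ : ContDiffOn ℂ ∞ Z U) (I : Ix m) :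
    ContDiffOn ℂ ∞ (fun y => Z y I) U := contDiffOn_pi.1 hZ I

private theorem Mes_DZ {z : E n} (hU : IsOpen U) (hZ : ContDiffOn ℂ ∞ Z U) (hz : z ∈ U)
    (g : E n → ℂ) (I : Ix m) :
    fderiv ℂ Z z (Mes_h g z) I = bracket g (fun y => Z y I) z := by
  have hd := Mes_diff hU hZ hz
  have h1 : fderiv ℂ Z z (Mes_h g z) I = d10 (fun y => Z y I) z (Mes_h g z) := by
    rw [d10_of_diff (differentiableAt_pi.1 hd I)]
    have h2 := (hasFDerivAt_pi'.1 hd.hasFDerivAt I).fderiv
    rw [h2]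
    rfl
  rw [h1, d10_eq_sum]
  unfold bracket
  refine Finset.sum_congr rfl fun k _ => ?_
  simp only [Mes_h, pk]

private theorem Mes_br {z : E n} (hU : IsOpen U) (hZ : ContDiffOn ℂ ∞ Z U) (hz : z ∈ U)
    {O' : Set (E m)} (hO' : IsOpen O') {P : Ix m → Ix m → E m → ℂ}
    (hP : ∀ I J, ContDiffOn ℂ ∞ (P I J) O') (hZO : ∀ y ∈ U, Z y ∈ O')
    (hb : ∀ y ∈ U, ∀ I J, bracket (fun x => Z x I) (fun x => Z x J) y = P I J (Z y))
    {D M : ℝ} (hD0 : 0 ≤ D) (hM0 : 0 ≤ M)
    (hD : ∀ I J L, ‖fderiv ℂ (P I J) (Z z) (e L)‖ ≤ D)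
    (hM : ∀ J : Ix n → Ix m, ‖minor (fun p y => Z y (J p)) z‖ ≤ M) (J : Ix n → Ix m)
    (I : Ix m) :
    ‖bracket (minor fun p y => Z y (J p)) (fun y => Z y I) z‖
      ≤ 2 * n * (2 * m) * D * M := by
  rw [brm hU (f := fun p y => Z y (J p)) (fun p => Mes_comp hZ (J p)) (Mes_comp hZ I) hz]
  have h1 : ∀ p : Ix n, ‖minor (Function.update (fun p y => Z y (J p)) p
      (bracket (fun y => Z y (J p)) (fun y => Z y I))) z‖ ≤ 2 * m * D * M := by
    intro p
    have hg : bracket (fun y => Z y (J p)) (fun y => Z y I)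
        =ᶠ[𝓝 z] fun y => P (J p) I (Z y) := by
      filter_upwards [hU.mem_nhds hz] with y hy
      exact hb y hy (J p) I
    rw [mch hU hZ hO' (hP (J p) I) hz (hZO z hz) (fun p y => Z y (J p)) p hg]
    refine (norm_sum_le _ _).trans ?_
    have h2 : ∀ L ∈ (Finset.univ : Finset (Ix m)), ‖fderiv ℂ (P (J p) I) (Z z) (e L)
        * minor (Function.update (fun p y => Z y (J p)) p fun y => Z y L) z‖ ≤ D * M := by
      intro L _
      rw [norm_mul]
      have h3 : (Function.update (fun p y => Z y (J p)) p fun y => Z y L)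
          = fun q y => Z y (Function.update J p L q) := by
        funext q y
        by_cases hq : q = p
        · subst hq
          simp
        · simp [Function.update_of_ne hq]
      rw [h3]
      exact mul_le_mul (hD _ _ _) (hM _) (norm_nonneg _) hD0
    refine (Finset.sum_le_sum h2).trans ?_
    rw [Finset.sum_const, Finset.card_univ]
    have h4 : Fintype.card (Ix m) = 2 * m := by
      simp [Ix, two_mul]
    rw [h4, nsmul_eq_mul]
    push_cast
    linarith
  refine (norm_sum_le _ _).trans ((Finset.sum_le_sum fun p _ => h1 p).trans ?_)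
  rw [Finset.sum_const, Finset.card_univ]
  have h4 : Fintype.card (Ix n) = 2 * n := by
    simp [Ix, two_mul]
  rw [h4, nsmul_eq_mul]
  push_cast
  linarith

theorem mes (h : Emb w U Z W B) {z : E n} (hz : z ∈ U) {O' : Set (E m)} (hO' : IsOpen O')
    {P : Ix m → Ix m → E m → ℂ} (hP : ∀ I J, ContDiffOn ℂ ∞ (P I J) O') (hZ : ∀ y ∈ U, Z y ∈ O')
    (hb : ∀ y ∈ U, ∀ I J, bracket (fun x => Z x I) (fun x => Z x J) y = P I J (Z y))
    {D H M : ℝ} (hD0 : 0 ≤ D) (hH0 : 0 ≤ H) (hM0 : 0 ≤ M)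
    (hD : ∀ I J L, ‖fderiv ℂ (P I J) (Z z) (e L)‖ ≤ D)
    (hH : ∀ a : E m, (levi W (Z z) a a).re ≤ H * ‖a‖ ^ 2)
    (hM : ∀ J : Ix n → Ix m, ‖minor (fun p y => Z y (J p)) z‖ ≤ M) (b : E n)
    (J : Ix n → Ix m) :
    ‖d10 (minor fun p y => Z y (J p)) z (XX w z b)‖
      ≤ √H * (2 * n * (2 * m) * D * M) * √(levi w z b b).re := by
  set g : E n → ℂ := minor fun p y => Z y (J p) with hg
  have hC : 0 ≤ 2 * (n : ℝ) * (2 * m) * D * M := by positivity
  have h1 : ‖d10 g z (XX w z b)‖ = ‖levi w z (Mes_h g z) b‖ := by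
    rw [Mes_levi h.loc hz, norm_neg]
  have hbb := (levi_self h.loc hz b).2
  have h2 := levi_cs h.loc hz (Mes_h g z) b
  have h3 : (levi w z (Mes_h g z) (Mes_h g z)).re
      ≤ H * (2 * n * (2 * m) * D * M) ^ 2 := by
    rw [h.compat z hz]
    refine (hH _).trans ?_
    have h4 : ‖fderiv ℂ Z z (Mes_h g z)‖ ≤ 2 * n * (2 * m) * D * M := by
      refine (pi_norm_le_iff_of_nonneg hC).2 fun I => ?_
      rw [Mes_DZ h.loc.op h.hol hz]
      exact Mes_br h.loc.op h.hol hz hO' hP hZ hb hD0 hM0 hD hM J I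
    gcongr
  have h5 : ‖levi w z (Mes_h g z) b‖ ^ 2
      ≤ H * (2 * n * (2 * m) * D * M) ^ 2 * (levi w z b b).re := by
    rw [← Complex.normSq_eq_norm_sq]
    exact h2.trans (mul_le_mul_of_nonneg_right h3 hbb)
  rw [h1]
  have h6 : √H * (2 * n * (2 * m) * D * M) * √(levi w z b b).re
      = √(H * (2 * n * (2 * m) * D * M) ^ 2 * (levi w z b b).re) := by
    rw [Real.sqrt_mul (by positivity), Real.sqrt_mul hH0, Real.sqrt_sq hC]
  rw [h6]
  exact Real.le_sqrt_of_sq_le h5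

end Pool.Agent.LFN
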