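import Pool.Agent.LFN.Mes
import Pool.Agent.NSK.InvG
import Pool.Agent.NSK.MinA

/-!
Msd (size 4): the sum of the squares of the minors along a path with velocity `X_b`.
`ms_inv`: `fz_eq` (NSK/MinA), `chg_fz` with `chg_of` (NSK/InvN, InvG), as in the proof of `inv_wei`.
`ms_der`: `g J = minor (fun p y => Z y (J p))` is holomorphic on `U` (`minor_hol`), so `fun σ => g J (c σ)` has at `s` the derivative
`fderiv ℝ (g J) (c s) (X_b) = d10 (g J) (c s) (X_b)`, of norm `≤ √H * (2 * n * (2 * m) * D * √(ms)) * √K` by `mes` with `M = √(ms Z (c s))`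
(`‖g J‖² ≤ ms`, `Finset.single_le_sum`); `normSq (g J)' = 2 Re (conj (g J) * (g J)')`, sum over the `(2m)^(2n)` values of `J`
(`Fintype.card (Ix n → Ix m)`, keep `Fintype.card` in the constant).
-/

open scoped ContDiff ComplexConjugate Topology
open Complex

namespace Pool.Agent.LFN

open Pool.Agent.DTW Pool.Agent.SKF Pool.Agent.NSK Pool.Agent.LFC

variable {n m : ℕ} {w : E n → ℝ} {U : Set (E n)} {Z : E n → E m} {W : E m → ℝ} {B : Set (E m)}

/-- the sum of the squares of the minors -/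
noncomputable def ms (Z : E n → E m) (z : E n) : ℝ :=
  ∑ J : Ix n → Ix m, Complex.normSq (minor (fun p y => Z y (J p)) z)

theorem ms_inv {X : Type*} [TopologicalSpace X] {ι κ : Type*} {A : Space n m X ι κ}
    (η : Form A) {k : κ} {i j : ι} {z : E n} (hz : z ∈ A.D k i)
    (hj : (A.c i).symm z ∈ (A.c j).source) :
    ms (A.Z k i) z = ms (A.Z k j) (A.c j ((A.c i).symm z)) := by
  have h := chg_of η k i j
  have hZ : ∀ y ∈ {y | y ∈ A.D k i ∧ (A.c i).symm y ∈ (A.c j).source},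
      A.Z k i y = A.Z k j ((A.c j ∘ (A.c i).symm) y) := fun y hy => Z_chg A k i j hy.1 hy.2
  have hZ' : ContDiffOn ℂ ∞ (A.Z k j) (A.D k j) := A.holo k j
  unfold ms
  refine Finset.sum_congr rfl fun J _ => ?_
  have h2 := chg_fz h hZ' hZ (z := z) ⟨hz, hj⟩ (fun p => e (J p))
  rw [fz_eq, fz_eq] at h2
  exact h2

private theorem Msd_le {G : (Ix n → Ix m) → ℂ} {S : ℝ} (hS : S = ∑ J, Complex.normSq (G J))
    (J : Ix n → Ix m) : ‖G J‖ ≤ √S := by
  refine Real.le_sqrt_of_sq_le ?_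
  rw [← Complex.normSq_eq_norm_sq, hS]
  exact Finset.single_le_sum (f := fun J => Complex.normSq (G J))
    (fun J _ => Complex.normSq_nonneg _) (Finset.mem_univ J)

private theorem Msd_sum {G : (Ix n → Ix m) → ℝ → ℂ} {G' : (Ix n → Ix m) → ℂ} {s M R : ℝ}
    (hG : ∀ J, HasDerivAt (G J) (G' J) s) (h1 : ∀ J, ‖G J s‖ ≤ M) (h2 : ∀ J, ‖G' J‖ ≤ R * M)
    (hM : 0 ≤ M) :
    ∃ d : ℝ, HasDerivAt (fun σ => ∑ J, Complex.normSq (G J σ)) d s ∧
      |d| ≤ 2 * Fintype.card (Ix n → Ix m) * R * (M * M) := by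
  have hns : ∀ J, HasDerivAt (fun σ => Complex.normSq (G J σ))
      (2 * ((G J s).re * (G' J).re + (G J s).im * (G' J).im)) s := by
    intro J
    have hre : HasDerivAt (fun σ => (G J σ).re) (G' J).re s :=
      Complex.reCLM.hasFDerivAt.comp_hasDerivAt s (hG J)
    have him : HasDerivAt (fun σ => (G J σ).im) (G' J).im s :=
      Complex.imCLM.hasFDerivAt.comp_hasDerivAt s (hG J)
    have h1 := (hre.mul hre).add (him.mul him)
    have h2 : (fun σ => Complex.normSq (G J σ))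
        = fun σ => (G J σ).re * (G J σ).re + (G J σ).im * (G J σ).im := by
      funext σ
      exact Complex.normSq_apply _
    rw [h2]
    refine h1.congr_deriv ?_
    ring
  refine ⟨∑ J, 2 * ((G J s).re * (G' J).re + (G J s).im * (G' J).im),
    HasDerivAt.fun_sum fun J _ => hns J, ?_⟩
  have hterm : ∀ J, |2 * ((G J s).re * (G' J).re + (G J s).im * (G' J).im)|
      ≤ 2 * (R * (M * M)) := by
    intro J
    have h3 : (G J s).re * (G' J).re + (G J s).im * (G' J).im = (conj (G J s) * G' J).re := by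
      simp [Complex.mul_re]
    rw [h3, abs_mul, abs_two]
    refine mul_le_mul_of_nonneg_left ?_ zero_le_two
    refine (Complex.abs_re_le_norm _).trans ?_
    rw [norm_mul, Complex.norm_conj]
    calc ‖G J s‖ * ‖G' J‖ ≤ M * (R * M) := mul_le_mul (h1 J) (h2 J) (norm_nonneg _) hM
      _ = R * (M * M) := by ring
  refine (Finset.abs_sum_le_sum_abs _ _).trans ?_
  refine (Finset.sum_le_card_nsmul _ _ _ fun J _ => hterm J).trans (le_of_eq ?_)
  rw [Finset.card_univ, nsmul_eq_mul]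
  ring

theorem ms_der (h : Emb w U Z W B) {O' : Set (E m)} (hO' : IsOpen O')
    {P : Ix m → Ix m → E m → ℂ} (hP : ∀ I J, ContDiffOn ℂ ∞ (P I J) O') (hZ : ∀ y ∈ U, Z y ∈ O')
    (hb : ∀ y ∈ U, ∀ I J, bracket (fun x => Z x I) (fun x => Z x J) y = P I J (Z y))
    {D H K : ℝ} (hD0 : 0 ≤ D) (hH0 : 0 ≤ H) {c : ℝ → E n} {s : ℝ} (hz : c s ∈ U)
    (hD : ∀ I J L, ‖fderiv ℂ (P I J) (Z (c s)) (e L)‖ ≤ D)
    (hH : ∀ a : E m, (levi W (Z (c s)) a a).re ≤ H * ‖a‖ ^ 2) {b : E n}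
    (hc : HasDerivAt c (XX w (c s) b) s) (hK : (levi w (c s) b b).re ≤ K) :
    ∃ d : ℝ, HasDerivAt (fun σ => ms Z (c σ)) d s ∧
      |d| ≤ 2 * Fintype.card (Ix n → Ix m) * (√H * (2 * n * (2 * m) * D) * √K) * ms Z (c s) := by
  have hms0 : 0 ≤ ms Z (c s) := Finset.sum_nonneg fun J _ => Complex.normSq_nonneg _
  have hMM : √(ms Z (c s)) * √(ms Z (c s)) = ms Z (c s) := Real.mul_self_sqrt hms0
  obtain ⟨g, hg⟩ : ∃ g : (Ix n → Ix m) → E n → ℂ, ∀ J, g J = minor (fun p y => Z y (J p)) :=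
    ⟨fun J => minor (fun p y => Z y (J p)), fun J => rfl⟩
  have hmsg : ∀ y, ms Z y = ∑ J, Complex.normSq (g J y) := by
    intro y
    unfold ms
    simp only [hg]
  have hgM : ∀ J, ‖g J (c s)‖ ≤ √(ms Z (c s)) := fun J =>
    Msd_le (G := fun J => g J (c s)) (hmsg (c s)) J
  have hZc : ∀ I : Ix m, ContDiffOn ℂ ∞ (fun y => Z y I) U := fun I => contDiffOn_pi.1 h.hol I
  have hgh : ∀ J, DifferentiableAt ℂ (g J) (c s) := by
    intro J
    rw [hg]
    exact ((minor_hol h.loc.op (f := fun p y => Z y (J p)) fun p => hZc (J p)).contDiffAt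
      (h.loc.op.mem_nhds hz)).differentiableAt (by simp)
  have hder : ∀ J, ‖d10 (g J) (c s) (XX w (c s) b)‖
      ≤ (√H * (2 * n * (2 * m) * D) * √K) * √(ms Z (c s)) := by
    intro J
    have h1 := mes h hz hO' hP hZ hb hD0 hH0 (Real.sqrt_nonneg (ms Z (c s))) hD hH
      (fun J => by rw [← hg]; exact hgM J) b J
    rw [← hg] at h1
    refine h1.trans ?_
    have h2 : √(levi w (c s) b b).re ≤ √K := Real.sqrt_le_sqrt hK
    calc √H * (2 * n * (2 * m) * D * √(ms Z (c s))) * √(levi w (c s) b b).re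
        ≤ √H * (2 * n * (2 * m) * D * √(ms Z (c s))) * √K := by
          refine mul_le_mul_of_nonneg_left h2 ?_
          positivity
      _ = (√H * (2 * n * (2 * m) * D) * √K) * √(ms Z (c s)) := by ring
  have hcomp : ∀ J, HasDerivAt (fun σ => g J (c σ)) (d10 (g J) (c s) (XX w (c s) b)) s := by
    intro J
    have h1 : HasFDerivAt (g J) ((fderiv ℂ (g J) (c s)).restrictScalars ℝ) (c s) :=
      (hgh J).hasFDerivAt.restrictScalars ℝ
    have h2 := h1.comp_hasDerivAt s hc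
    have h3 : ((fderiv ℂ (g J) (c s)).restrictScalars ℝ) (XX w (c s) b)
        = d10 (g J) (c s) (XX w (c s) b) := by
      rw [d10_of_diff (hgh J)]
      rfl
    rw [h3] at h2
    exact h2
  obtain ⟨d, hd1, hd2⟩ := Msd_sum (G := fun J σ => g J (c σ)) hcomp hgM hder
    (Real.sqrt_nonneg _)
  rw [hMM] at hd2
  refine ⟨d, ?_, hd2⟩
  have h4 : (fun σ => ms Z (c σ)) = fun σ => ∑ J, Complex.normSq (g J (c σ)) :=
    funext fun σ => hmsg (c σ)
  rw [h4]
  exact hd1

end Pool.Agent.LFN
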