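import Pool.Agent.LFN.Msd
import Pool.Agent.NSK.EmbO
import Pool.Agent.NSK.CsdP

/-!
Nos (size 5): a path with velocities `X_b`, `|X_b|² ≤ K`, that converges for `s → s₂` converges to a regular point.
PROOF. Suppose `x` is not in any `(A.c i).source`. `x ∈ A.V k` (`cover`), `poisson k x`: `O`, `O'`, `P`. `ζ k x ∈ O' ∩ η.B k` open: closed ball `Q` around `ζ k x`
in it; `D` = bound of `‖fderiv ℂ (P I J) y (e L)‖`, `y ∈ Q` (continuous: `ContDiffOn.continuousOn_fderiv_of_isOpen`, compactness, sum over the finitely many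
`I, J, L`), `H` = bound from `bndHP` (NSK/CsdP). `N = {y ∈ O ∩ A.V k | ζ k y ∈ ball}` is an open neighbourhood of `x`; `s₁ ∈ (a, s₂)` with `p s ∈ N` for
`s ∈ [s₁, s₂)` (`hx`). For such `s` and every `i` with `p s ∈ (A.c i).source`: `ms_der` with `U = {z ∈ A.D k i | (A.c i).symm z ∈ N}` (open; `Emb` on it by
restriction of `emb_of η k i`), `c σ = A.c i (p σ)`: `|d| ≤ C * ms`. Put `f s = ms (A.Z k i) (A.c i (p s))` for any `i` with `p s ∈ (A.c i).source` (choose `i(s)`;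
by `ms_inv` it does not depend on `i`, so near `s` it equals the expression in one fixed chart `i`: `p` is continuous at `s`): `f` is differentiable on
`(s₁, s₂)` (use a slightly smaller `s₁` for the left end) with `|f'| ≤ C f`; `f (s₁) > 0` by `immersion`. `s ↦ f s * exp (C s)` is monotone on `[s₁, s₂)`
(`monotoneOn_of_deriv_nonneg`), so `f s ≥ f s₁ * exp (-C (s₂ - s₁)) = c₀ > 0`. By `minors` with small `ε` (`card * ε² < c₀`) and `hx`: `f s ≤ card * ε² < c₀` for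
`s` near `s₂`, a contradiction.
-/

open scoped ContDiff ComplexConjugate Topology
open Complex

namespace Pool.Agent.LFN

open Pool.Agent.DTW Pool.Agent.SKF Pool.Agent.NSK Pool.Agent.LFC

section aux

variable {n m : ℕ} {X : Type*} [TopologicalSpace X] {ι κ : Type*} {A : Space n m X ι κ}

private theorem Nos_lem (η : Form A) (k : κ) {N : Set X} (hN : IsOpen N) (hNV : N ⊆ A.V k)
    {O' : Set (E m)} (hO' : IsOpen O') {P : Ix m → Ix m → E m → ℂ}
    (hP : ∀ I J, ContDiffOn ℂ ∞ (P I J) O') (hZ : ∀ y ∈ N, A.ζ k y ∈ O')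
    (hb : ∀ i z, z ∈ (A.c i).target → (A.c i).symm z ∈ N → ∀ I J : Ix m,
      bracket (fun y => A.ζ k ((A.c i).symm y) I) (fun y => A.ζ k ((A.c i).symm y) J) z
        = P I J (A.ζ k ((A.c i).symm z)))
    {D H K : ℝ} (hD0 : 0 ≤ D) (hH0 : 0 ≤ H)
    (hD : ∀ y ∈ N, ∀ I J L, ‖fderiv ℂ (P I J) (A.ζ k y) (e L)‖ ≤ D)
    (hH : ∀ y ∈ N, ∀ a : E m, (levi (η.W k) (A.ζ k y) a a).re ≤ H * ‖a‖ ^ 2)
    {p : ℝ → X} {s : ℝ} {i : ι} (hps : p s ∈ N) (hi : p s ∈ (A.c i).source) {b : E n}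
    (hc : HasDerivAt (fun σ => A.c i (p σ)) (XX (η.w i) (A.c i (p s)) b) s)
    (hK : (levi (η.w i) (A.c i (p s)) b b).re ≤ K) :
    ∃ d : ℝ, HasDerivAt (fun σ => ms (A.Z k i) (A.c i (p σ))) d s ∧
      |d| ≤ 2 * Fintype.card (Ix n → Ix m) * (√H * (2 * n * (2 * m) * D) * √K) *
        ms (A.Z k i) (A.c i (p s)) := by
  have hE := emb_of η k i
  have hUo : IsOpen {z | z ∈ (A.c i).target ∧ (A.c i).symm z ∈ N} :=
    (A.c i).isOpen_inter_preimage_symm hN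
  have hsub : {z | z ∈ (A.c i).target ∧ (A.c i).symm z ∈ N} ⊆ A.D k i :=
    fun z hz => ⟨hz.1, hNV hz.2⟩
  have hE' : Emb (η.w i) {z | z ∈ (A.c i).target ∧ (A.c i).symm z ∈ N} (A.Z k i) (η.W k)
      (η.B k) :=
    ⟨⟨hUo, hE.loc.sm.mono hsub, fun z hz => hE.loc.psd z (hsub hz),
      fun z hz => hE.loc.iso z (hsub hz)⟩, hE.hol.mono hsub, hE.op, hE.sm,
      fun y hy => hE.maps y (hsub hy), hE.nonneg, fun z hz a b => hE.compat z (hsub hz) a b⟩
  have hsymm : (A.c i).symm (A.c i (p s)) = p s := (A.c i).left_inv hi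
  have hZs : A.Z k i (A.c i (p s)) = A.ζ k (p s) := by
    unfold Space.Z
    rw [Function.comp_apply, hsymm]
  refine ms_der hE' hO' hP (fun y hy => hZ _ hy.2) (fun y hy I J => hb i y hy.1 hy.2 I J)
    hD0 hH0 (c := fun σ => A.c i (p σ)) (s := s) ⟨(A.c i).map_source hi, ?_⟩ ?_ ?_ hc hK
  · show (A.c i).symm (A.c i (p s)) ∈ N
    rw [hsymm]; exact hps
  · intro I J L
    show ‖fderiv ℂ (P I J) (A.Z k i (A.c i (p s))) (e L)‖ ≤ D
    rw [hZs]; exact hD _ hps I J L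
  · intro v
    show (levi (η.W k) (A.Z k i (A.c i (p s))) v v).re ≤ H * ‖v‖ ^ 2
    rw [hZs]; exact hH _ hps v

open Classical in
/-- the sum of the squares of the minors along a path -/
private noncomputable def Nos_f (A : Space n m X ι κ) (k : κ) (p : ℝ → X) (s : ℝ) : ℝ :=
  if h : ∃ i, p s ∈ (A.c i).source then ms (A.Z k h.choose) (A.c h.choose (p s)) else 0

private theorem Nos_f_eq (η : Form A) (k : κ) (p : ℝ → X) {s : ℝ} {i : ι}
    (hV : p s ∈ A.V k) (hi : p s ∈ (A.c i).source) :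
    Nos_f A k p s = ms (A.Z k i) (A.c i (p s)) := by
  have h : ∃ i, p s ∈ (A.c i).source := ⟨i, hi⟩
  unfold Nos_f
  rw [dif_pos h]
  have hj := h.choose_spec
  have hs : (A.c h.choose).symm (A.c h.choose (p s)) = p s := (A.c h.choose).left_inv hj
  have hD : A.c h.choose (p s) ∈ A.D k h.choose :=
    ⟨(A.c h.choose).map_source hj, by rw [hs]; exact hV⟩
  have := ms_inv η (j := i) hD (by rw [hs]; exact hi)
  rw [this, hs]

/-- Gronwall -/
private theorem Nos_gron {f : ℝ → ℝ} {s₀ s₂ C : ℝ} (hC : 0 ≤ C) 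
    (hf : ∀ s ∈ Set.Ico s₀ s₂, ∃ d : ℝ, HasDerivAt f d s ∧ |d| ≤ C * f s) (h0 : 0 < f s₀)
    {s : ℝ} (hs : s ∈ Set.Ico s₀ s₂) : f s₀ * Real.exp (-(C * (s₂ - s₀))) ≤ f s := by
  have hd : ∀ s ∈ Set.Ico s₀ s₂, ∃ d : ℝ, HasDerivAt (fun s => f s * Real.exp (C * s)) d s ∧
      0 ≤ d := by
    intro s hs
    obtain ⟨d, hd, hd'⟩ := hf s hs
    have he : HasDerivAt (fun s => Real.exp (C * s)) (Real.exp (C * s) * C) s := by
      have := ((hasDerivAt_id s).const_mul C).exp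
      simpa using this
    refine ⟨_, hd.mul he, ?_⟩
    have h1 : -(C * f s) ≤ d := by
      have := neg_abs_le d
      linarith
    have h2 := Real.exp_pos (C * s)
    nlinarith
  have hmono : MonotoneOn (fun s => f s * Real.exp (C * s)) (Set.Ico s₀ s₂) := by
    refine monotoneOn_of_deriv_nonneg (convex_Ico _ _) ?_ ?_ ?_
    · intro s hs
      obtain ⟨d, hd, -⟩ := hd s hs
      exact hd.continuousAt.continuousWithinAt
    · intro s hs
      obtain ⟨d, hd, -⟩ := hd s (interior_subset hs)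
      exact hd.differentiableAt.differentiableWithinAt
    · intro s hs
      obtain ⟨d, hd, hd0⟩ := hd s (interior_subset hs)
      rw [hd.deriv]; exact hd0
  have h1 := hmono (Set.left_mem_Ico.2 (lt_of_le_of_lt hs.1 hs.2)) hs hs.1
  simp only at h1
  have h2 : f s₀ * Real.exp (C * s₀) * Real.exp (-(C * s)) ≤ f s := by
    have h3 : f s * Real.exp (C * s) * Real.exp (-(C * s)) = f s := by
      rw [mul_assoc, ← Real.exp_add]; simp
    rw [← h3]
    exact mul_le_mul_of_nonneg_right h1 (Real.exp_pos _).le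
  refine le_trans ?_ h2
  rw [mul_assoc, ← Real.exp_add]
  refine mul_le_mul_of_nonneg_left (Real.exp_le_exp.2 ?_) h0.le
  nlinarith [hs.2, hC]

private theorem Nos_bdD {O' : Set (E m)} (hO' : IsOpen O') {P : Ix m → Ix m → E m → ℂ}
    (hP : ∀ I J, ContDiffOn ℂ ∞ (P I J) O') {Q : Set (E m)} (hQ : IsCompact Q) (hQO : Q ⊆ O') :
    ∃ D : ℝ, 0 ≤ D ∧ ∀ y ∈ Q, ∀ I J L, ‖fderiv ℂ (P I J) y (e L)‖ ≤ D := by
  have h1 : ∀ q : Ix m × Ix m × Ix m, ∃ C : ℝ, ∀ y ∈ Q,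
      ‖fderiv ℂ (P q.1 q.2.1) y (e q.2.2)‖ ≤ C := by
    intro q
    have h := (hP q.1 q.2.1).continuousOn_fderiv_of_isOpen hO' (by simp)
    exact hQ.exists_bound_of_continuousOn ((h.mono hQO).clm_apply continuousOn_const)
  choose C hC using h1
  refine ⟨∑ q, |C q|, Finset.sum_nonneg fun _ _ => abs_nonneg _, fun y hy I J L => ?_⟩
  refine (hC (I, J, L) y hy).trans ((le_abs_self _).trans ?_)
  exact Finset.single_le_sum (f := fun q => |C q|) (fun _ _ => abs_nonneg _)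
    (Finset.mem_univ (I, J, L))

end aux

variable {n m : ℕ} {X : Type*} [TopologicalSpace X] {ι κ : Type*} {A : Variety n m X ι κ}

theorem nos (η : Form A.toSpace) {p : ℝ → X} {a s₂ K : ℝ} (h : a < s₂)
    (hp : ∀ s ∈ Set.Ioo a s₂, ContinuousAt p s)
    (hreg : ∀ s ∈ Set.Ioo a s₂, ∃ i, p s ∈ (A.c i).source)
    (hv : ∀ i, ∀ s ∈ Set.Ioo a s₂, p s ∈ (A.c i).source → ∃ b : E n,
      HasDerivAt (fun σ => A.c i (p σ)) (XX (η.w i) (A.c i (p s)) b) s ∧
        (levi (η.w i) (A.c i (p s)) b b).re ≤ K)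
    {x : X} (hx : Filter.Tendsto p (𝓝[<] s₂) (𝓝 x)) : ∃ i, x ∈ (A.c i).source := by
  by_contra hne
  push Not at hne
  obtain ⟨k, hk⟩ := A.cover x
  obtain ⟨O, O', P, hO, hxO, hO', hP, hm, hb⟩ := A.poisson k x hk
  have hxB : A.ζ k x ∈ η.B k := η.maps k x hk
  obtain ⟨ρ, hρ, hball⟩ := Metric.isOpen_iff.1 (hO'.inter (η.open_B k)) (A.ζ k x)
    ⟨hm x hxO, hxB⟩
  have hcl : Metric.closedBall (A.ζ k x) (ρ / 2) ⊆ O' ∩ η.B k :=
    (Metric.closedBall_subset_ball (by linarith)).trans hball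
  have hQ : IsCompact (Metric.closedBall (A.ζ k x) (ρ / 2)) := isCompact_closedBall _ _
  obtain ⟨D, hD0, hD⟩ := Nos_bdD hO' hP hQ (fun y hy => (hcl hy).1)
  obtain ⟨H, hH0, hH⟩ := bndHP (η.open_B k) (η.smooth_W k) hQ (fun y hy => (hcl hy).2)
  -- the neighbourhood
  set N : Set X := (O ∩ A.V k) ∩ A.ζ k ⁻¹' Metric.ball (A.ζ k x) (ρ / 2) with hNdef
  have hNo : IsOpen N := ((A.cont k).mono Set.inter_subset_right).isOpen_inter_preimage
    (hO.inter (A.isOpen k)) Metric.isOpen_ball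
  have hxN : x ∈ N := ⟨⟨hxO, hk⟩, Metric.mem_ball_self (by linarith)⟩
  have hNV : N ⊆ A.toSpace.V k := fun y hy => hy.1.2
  have hNQ : ∀ y ∈ N, A.ζ k y ∈ Metric.closedBall (A.ζ k x) (ρ / 2) :=
    fun y hy => Metric.ball_subset_closedBall hy.2
  set C : ℝ := 2 * Fintype.card (Ix n → Ix m) * (√H * (2 * n * (2 * m) * D) * √K) with hC
  have hC0 : 0 ≤ C := by positivity
  have hder : ∀ s ∈ Set.Ioo a s₂, p s ∈ N → ∃ d : ℝ,
      HasDerivAt (Nos_f A.toSpace k p) d s ∧ |d| ≤ C * Nos_f A.toSpace k p s := by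
    intro s hs hsN
    obtain ⟨i, hi⟩ := hreg s hs
    obtain ⟨b, hb1, hb2⟩ := hv i s hs hi
    obtain ⟨d, hd1, hd2⟩ := Nos_lem η k hNo hNV hO' hP (fun y hy => hm y hy.1.1)
      (fun i z hz hzN I J => hb i z hz hzN.1.1 I J) hD0 hH0
      (fun y hy I J L => hD _ (hNQ y hy) I J L) (fun y hy a => hH _ (hNQ y hy) a)
      (K := K) (p := p) (s := s) (i := i) hsN hi hb1 hb2
    have hev : Nos_f A.toSpace k p =ᶠ[𝓝 s]
        fun σ => ms (A.toSpace.Z k i) (A.toSpace.c i (p σ)) := by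
      filter_upwards [(hp s hs).eventually (hNo.mem_nhds hsN),
        (hp s hs).eventually ((A.c i).open_source.mem_nhds hi)] with σ h1 h2
      exact Nos_f_eq η k p (hNV h1) h2
    refine ⟨d, hd1.congr_of_eventuallyEq hev, ?_⟩
    rw [Nos_f_eq η k p (hNV hsN) hi]
    exact hd2
  -- points near `s₂`
  have hNev : ∀ᶠ s in 𝓝[<] s₂, p s ∈ N := hx.eventually (hNo.mem_nhds hxN)
  obtain ⟨s₁, hs₁, hs₁N⟩ := (mem_nhdsLT_iff_exists_Ioo_subset).1 hNev
  have hs₁' : s₁ < s₂ := hs₁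
  set s₀ : ℝ := (max s₁ a + s₂) / 2 with hs₀
  have hmax : max s₁ a < s₂ := max_lt hs₁' h
  have hs₀1 : max s₁ a < s₀ := by rw [hs₀]; linarith
  have hs₀2 : s₀ < s₂ := by rw [hs₀]; linarith
  have hIco : ∀ s ∈ Set.Ico s₀ s₂, s ∈ Set.Ioo a s₂ ∧ p s ∈ N := by
    intro s hs
    have h1 : max s₁ a < s := lt_of_lt_of_le hs₀1 hs.1
    refine ⟨⟨lt_of_le_of_lt (le_max_right _ _) h1, hs.2⟩, ?_⟩
    exact hs₁N ⟨lt_of_le_of_lt (le_max_left _ _) h1, hs.2⟩
  have hpos : 0 < Nos_f A.toSpace k p s₀ := by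
    obtain ⟨h1, h2⟩ := hIco s₀ ⟨le_rfl, hs₀2⟩
    obtain ⟨i, hi⟩ := hreg s₀ h1
    rw [Nos_f_eq η k p (hNV h2) hi]
    have hsy : (A.c i).symm (A.c i (p s₀)) = p s₀ := (A.c i).left_inv hi
    obtain ⟨J, hJ⟩ := A.immersion k i (A.c i (p s₀)) ((A.c i).map_source hi)
      (by rw [hsy]; exact hNV h2)
    unfold ms
    refine Finset.sum_pos' (fun J _ => Complex.normSq_nonneg _) ⟨J, Finset.mem_univ _, ?_⟩
    exact Complex.normSq_pos.2 hJ
  have hgr : ∀ s ∈ Set.Ico s₀ s₂, Nos_f A.toSpace k p s₀ * Real.exp (-(C * (s₂ - s₀)))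
      ≤ Nos_f A.toSpace k p s := fun s hs =>
    Nos_gron hC0 (fun s hs => hder s (hIco s hs).1 (hIco s hs).2) hpos hs
  set c₀ : ℝ := Nos_f A.toSpace k p s₀ * Real.exp (-(C * (s₂ - s₀))) with hc₀
  have hc₀pos : 0 < c₀ := mul_pos hpos (Real.exp_pos _)
  set R : ℝ := (Fintype.card (Ix n → Ix m) : ℝ) with hR
  have hR0 : 0 ≤ R := Nat.cast_nonneg _
  have hεpos : 0 < √(c₀ / (2 * (R + 1))) := Real.sqrt_pos.2 (by positivity)
  obtain ⟨O₁, hO₁, hxO₁, hmin⟩ := A.minors k x hk hne _ hεpos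
  have hev : ∀ᶠ s in 𝓝[<] s₂, p s ∈ O₁ ∧ s ∈ Set.Ico s₀ s₂ := by
    refine (hx.eventually (hO₁.mem_nhds hxO₁)).and ?_
    exact Ico_mem_nhdsLT hs₀2
  obtain ⟨s, hsO, hsI⟩ := hev.exists
  obtain ⟨h1, h2⟩ := hIco s hsI
  obtain ⟨i, hi⟩ := hreg s h1
  have h3 := hgr s hsI
  rw [Nos_f_eq η k p (hNV h2) hi] at h3
  have hsy : (A.c i).symm (A.c i (p s)) = p s := (A.c i).left_inv hi
  have h4 : ms (A.toSpace.Z k i) (A.toSpace.c i (p s)) ≤ R * (c₀ / (2 * (R + 1))) := by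
    unfold ms
    have h5 : ∀ J ∈ (Finset.univ : Finset (Ix n → Ix m)),
        Complex.normSq (minor (fun p y => A.toSpace.Z k i y (J p)) (A.toSpace.c i (p s))) ≤
          c₀ / (2 * (R + 1)) := by
      intro J _
      have h6 := hmin i (A.c i (p s)) ((A.c i).map_source hi) (by rw [hsy]; exact hsO) J
      rw [Complex.normSq_eq_norm_sq]
      calc _ ≤ (√(c₀ / (2 * (R + 1)))) ^ 2 := pow_le_pow_left₀ (norm_nonneg _) h6 2
        _ = _ := Real.sq_sqrt (by positivity)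
    refine (Finset.sum_le_card_nsmul _ _ _ h5).trans ?_
    rw [nsmul_eq_mul, Finset.card_univ]
  have h7 : R * (c₀ / (2 * (R + 1))) < c₀ := by
    rw [← mul_div_assoc, div_lt_iff₀ (by positivity)]
    nlinarith
  linarith

end Pool.Agent.LFN
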